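import Pool.Agent.H529R2.MK.Defs

/-! Counting leaves (helper406). -/

namespace Pool.Agent.H529R2.MK

namespace BN

theorem sum_count (k : ℕ) : ∀ l : List ℕ, ∑ d ∈ Finset.range k, l.count d ≤ l.length := by
  intro l
  induction l with
  | nil => simp
  | cons a l ih =>
    have h1 : ∑ d ∈ Finset.range k, (a :: l).count d =
        ∑ d ∈ Finset.range k, l.count d + ∑ d ∈ Finset.range k, (if a = d then 1 else 0) := by
      rw [← Finset.sum_add_distrib]
      refine Finset.sum_congr rfl fun d _ => ?_
      rw [List.count_cons]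
      by_cases h : a = d <;> simp [h]
    have h2 : ∑ d ∈ Finset.range k, (if a = d then 1 else 0) ≤ 1 := by
      rw [Finset.sum_ite_eq]
      split_ifs <;> omega
    rw [h1, List.length_cons]
    omega

theorem claim : ∀ (P : Pg) (k : ℕ), P.two → 2 * P.lets + ∑ d ∈ Finset.range k, P.cnt d ≤ P.bn := by
  intro P
  induction P with
  | ret T =>
    intro k _
    simp only [Pg.lets, Pg.cnt, Pg.bn, Nat.mul_zero, Nat.zero_add]
    exact sum_count k T.bs
  | lt T R ih =>
    intro k h
    obtain ⟨h0, h1⟩ := h
    have h2 := ih (k + 1) h1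
    rw [Finset.sum_range_succ'] at h2
    have h3 := sum_count k T.bs
    simp only [Pg.lets, Pg.cnt, Pg.bn]
    rw [Finset.sum_add_distrib]
    omega

theorem leaves : ∀ T : Tb, T.vl.length + T.bs.length = T.gates + 1 := by
  intro T
  induction T with
  | v i s => simp [Tb.vl, Tb.bs, Tb.gates]
  | b j s => simp [Tb.vl, Tb.bs, Tb.gates]
  | nd o l r ihl ihr =>
    simp only [Tb.vl, Tb.bs, Tb.gates, List.length_append]
    omega

theorem leavesP : ∀ P : Pg, P.vl.length + P.bn = P.gates + P.lets + 1 := by
  intro P
  induction P with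
  | ret T =>
    simp only [Pg.vl, Pg.bn, Pg.gates, Pg.lets]
    have := leaves T
    omega
  | lt T R ih =>
    simp only [Pg.vl, Pg.bn, Pg.gates, Pg.lets, List.length_append]
    have := leaves T
    omega

end BN

theorem t_BN : S_BN := by
  refine ⟨fun P _ h => ?_, BN.leavesP⟩
  have := BN.claim P 0 h
  simpa using this

end Pool.Agent.H529R2.MK

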