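import Pool.Agent.H529R2.MK.Defs

/-!
# Task CORS: correctness, assembly
-/

namespace Pool.Agent.H529R2.MK

open Pool.Agent.NPC Pool.Agent.H532R2.MC Pool.Agent.H529R2.MQ

theorem cors_exG {α : Type} [DecidableEq α] (X : List α) (T : List Bool) (hX : X.Nodup)
    (h : T.length = X.length) : ∃ G : α → Bool, X.map G = T := by
  induction X generalizing T with
  | nil =>
    refine ⟨fun _ => false, ?_⟩
    rw [List.length_nil, List.length_eq_zero_iff] at h
    rw [h]; rfl
  | cons x X ih =>
    cases T with
    | nil => simp at h
    | cons t T =>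
      rw [List.nodup_cons] at hX
      obtain ⟨G, hG⟩ := ih T hX.2 (by simpa using h)
      refine ⟨Function.update G x t, ?_⟩
      rw [List.map_cons, Function.update_self]
      congr 1
      rw [← hG]
      apply List.map_congr_left
      intro y hy
      rw [Function.update_of_ne]
      rintro rfl
      exact hX.1 hy

theorem cors_ofFn (n : ℕ) (x : List Bool) (h : x.length = n) :
    List.ofFn (fun i : Fin n => x.getD i false) = x := by
  subst h
  apply List.ext_getElem
  · simp
  · intro i h1 h2
    simp only [List.getElem_ofFn]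
    rw [List.getD_eq_getElem _ _ h2]

theorem cors_range (n : ℕ) (x : List Bool) (h : x.length = n) :
    (List.range n).map (fun i => x.getD i false) = x := by
  subst h
  apply List.ext_getElem
  · simp
  · intro i h1 h2
    simp only [List.getElem_map, List.getElem_range]
    rw [List.getD_eq_getElem _ _ h2]

theorem cors_fnc_ofFn (n : ℕ) (f : BF n) (y : Fin n → Bool) : fnc f (List.ofFn y) = f y := by
  unfold fnc
  congr 1
  funext i
  have h : (i : ℕ) < (List.ofFn y).length := by simp
  rw [List.getD_eq_getElem _ _ h, List.getElem_ofFn]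

theorem cors_exf (hASG : S_ASG) (n : ℕ) (T : List Bool) (hT : T.length = 2 ^ n) :
    ∃ f : BF n, T = (asg n).map (fnc f) := by
  obtain ⟨G, hG⟩ := cors_exG (asg n) T (hASG.2.1 n) (by rw [hT, hASG.2.2.1 n])
  refine ⟨fun y => G (List.ofFn y), ?_⟩
  rw [← hG]
  apply List.map_congr_left
  intro x hx
  show G x = G (List.ofFn fun i : Fin n => x.getD i false)
  rw [cors_ofFn n x ((hASG.1 n x).1 hx)]

theorem cors_uniq (hASG : S_ASG) (n : ℕ) (f g : BF n)
    (h : (asg n).map (fnc f) = (asg n).map (fnc g)) : f = g := by
  funext y
  have h1 : ∀ x ∈ asg n, fnc f x = fnc g x := by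
    intro x hx
    exact List.map_inj_left.1 h x hx
  have h2 := h1 (List.ofFn y) ((hASG.1 n _).2 (by simp))
  rwa [cors_fnc_ofFn, cors_fnc_ofFn] at h2

theorem cors_len (hASG : S_ASG) (n : ℕ) (T : List Bool) :
    ((lg T).length = n ∧ (asgT T).length = T.length) ↔ T.length = 2 ^ n := by
  have e : (asgT T).length = 2 ^ (lg T).length := hASG.2.2.1 _
  constructor
  · rintro ⟨h1, h2⟩
    rw [← h2, e, h1]
  · intro h
    have h1 : (lg T).length = n := by
      unfold lg
      rw [List.length_tail, Nat.size_eq_bits_len, h, Nat.size_pow, Nat.add_sub_cancel]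
    refine ⟨h1, ?_⟩
    rw [e, h1, h]

/-- the circuit consisting of the variables -/
theorem cors_vars (n : ℕ) (l : List (Fin n)) :
    Circuit n (l.map fun i => (fun x : Fin n → Bool => x i)) 0 := by
  induction l with
  | nil => exact Circuit.nil
  | cons i l ih => exact Circuit.var i ih

theorem cors_fnc_var (n : ℕ) (i : ℕ) (hi : i < n) (x : List Bool) :
    fnc (fun y : Fin n → Bool => y ⟨i, hi⟩) x = x.getD i false := rfl

theorem cors_search (hCNT : S_CNT) (h1 : S_DEC1) (h2 : S_DEC2) (h3 : S_BN) (h4 : S_ESS2)
    (h5 : S_DL) (h7 : S_CPL2) (hASG : S_ASG) (k n s : ℕ) (hn : 1 ≤ n) (f : BF n)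
    (hs : s ≤ ess f + k) (hf : SizeLE n f s) :
    ∃ D ∈ asg n, ∃ p ∈ asg n,
      srch (asg n) ((asg n).map (fnc f)) p (KK k) (D.length + (k + 2)) s (k + 1) D
        ((List.range n).map fun i => litT (asg n) i false) 0 = true := by
  obtain ⟨P0, hu0, hv0, hg0, he0⟩ := h1 n f s hf
  obtain ⟨P, hu, hv, hg, he, htwo⟩ := h2 P0 0 hu0
  have hu' : P.use [] := hu
  have hvl : ∀ i ∈ P.vl, i.1 < n := by
    intro i hi
    have h := hv i hi
    rw [List.mem_map] at h
    obtain ⟨j, hj, hji⟩ := h
    rw [← hji]
    exact hv0 j hj
  have hev : ∀ x : List Bool, P.ev x [] = fnc f x := by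
    intro x
    rw [he x [] rfl, he0 x]
  have hb1 := h3.1 P hu' htwo
  have hb2 := h3.2 P
  have hE := h4 n f P hvl (fun x _ => hev x)
  set v : List ℕ := P.vl.map Prod.fst with hvdef
  have hvlen : v.length = P.vl.length := by rw [hvdef, List.length_map]
  have hFV : v.toFinset.card ≤ v.length := List.toFinset_card_le _
  have hFn : v.toFinset.card ≤ n := by
    calc v.toFinset.card ≤ (Finset.range n).card := by
          apply Finset.card_le_card
          intro i hi
          rw [List.mem_toFinset, hvdef, List.mem_map] at hi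
          obtain ⟨j, hj, hji⟩ := hi
          rw [← hji]
          exact Finset.mem_range.2 (hvl j hj)
      _ = n := Finset.card_range n
  set D : List Bool := (List.range n).map (fun i => decide (2 ≤ v.count i)) with hD
  have hDl : D.length = n := by simp [hD]
  have hDg : ∀ i, D.getD i false = true ↔ 2 ≤ v.count i := by
    intro i
    by_cases hi : i < n
    · rw [List.getD_eq_getElem _ _ (by rw [hDl]; exact hi)]
      simp [hD]
    · have h1 : D.getD i false = false := by
        rw [List.getD_eq_default _ _ (by rw [hDl]; omega)]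
      have h2 : v.count i = 0 := by
        rw [List.count_eq_zero]
        intro h
        rw [hvdef, List.mem_map] at h
        obtain ⟨j, hj, hji⟩ := h
        exact hi (hji ▸ hvl j hj)
      rw [h1, h2]
      simp
  have hDlt : ∀ i, D.getD i false = true → i < n := by
    intro i hi
    by_contra hcon
    rw [List.getD_eq_default _ _ (by rw [hDl]; omega)] at hi
    exact Bool.false_ne_true hi
  have hU := hCNT v
  have hfilt : (P.vl.filter (fun i => D.getD i.1 false)).length =
      (v.filter fun i => decide (2 ≤ v.count i)).length := by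
    have e1 : (v.filter fun i => decide (2 ≤ v.count i)) = v.filter (fun i => D.getD i false) := by
      apply List.filter_congr
      intro i _
      by_cases h : 2 ≤ v.count i
      · rw [(hDg i).2 h]; simp [h]
      · have : D.getD i false = false := by
          by_contra h'
          exact h ((hDg i).1 (by simpa using h'))
        rw [this]; simp [h]
    rw [e1, hvdef, List.filter_map, List.length_map]
    rfl
  obtain ⟨d1, d2, d3, d4, d5, d6⟩ := h5 n D P hDl hu' hvl
  set Q := P.dl D 0 with hQ
  set m : ℕ := n + (k + 2) with hm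
  have hlen := d6 m
  rw [hfilt] at hlen
  set U := (v.filter fun i => decide (2 ≤ v.count i)).length with hUd
  have a1 : P.lets ≤ k + 1 := by omega
  have a2 : U ≤ 2 * (k + 1) := by omega
  have a3 : P.bn ≤ 2 * k + 2 := by omega
  have a4 : P.gates + P.lets + 1 ≤ n + 2 * k + 2 := by omega
  have hbound : Q.len m ≤ KK k * n := by
    have c1 : m * (P.bn + U) ≤ m * (4 * k + 4) := Nat.mul_le_mul_left _ (by omega)
    have c2 : Q.len m ≤ 6 * (n + 2 * k + 2) + (n + (k + 2)) * (4 * k + 4) := by
      rw [hm] at c1 hlen ⊢
      omega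
    have c3 : 6 * (n + 2 * k + 2) ≤ 6 * (2 * k + 3) * n := by nlinarith
    have c4 : (n + (k + 2)) * (4 * k + 4) ≤ (k + 3) * n * (4 * k + 4) :=
      Nat.mul_le_mul_right _ (by nlinarith)
    have c5 : KK k * n = 6 * (2 * k + 3) * n + (k + 3) * n * (4 * k + 4) := by
      unfold KK
      ring
    rw [c5]
    omega
  have hnd : (Q.vl.map Prod.fst).Nodup := by
    rw [List.nodup_iff_count_le_one]
    intro a
    by_cases ha : a ∈ Q.vl.map Prod.fst
    · have hsub : (Q.vl.map Prod.fst).Sublist v := by
        rw [d5, hvdef]
        exact List.filter_sublist.map _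
      refine (hsub.count_le a).trans ?_
      rw [List.mem_map] at ha
      obtain ⟨j, hj, hja⟩ := ha
      rw [d5, List.mem_filter] at hj
      have hj2 := hj.2
      rw [hja] at hj2
      have : ¬ 2 ≤ v.count a := by
        intro h
        rw [(hDg a).2 h] at hj2
        simp at hj2
      omega
    · rw [List.count_eq_zero_of_not_mem ha]
      omega
  set p : List Bool := (List.range n).map (fun i => decide ((i, true) ∈ Q.vl)) with hp
  have hpl : p.length = n := by simp [hp]
  refine ⟨D, (hASG.1 n D).2 hDl, p, (hASG.1 n p).2 hpl, ?_⟩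
  rw [hDl]
  have hB : ((List.range n).map fun i => litT (asg n) i false) =
      (((List.range n).map (fun i => (fun x : List Bool => x.getD i false))).map
        fun g => (asg n).map g) := by
    rw [List.map_map]
    apply List.map_congr_left
    intro i _
    unfold litT
    simp
  rw [hB]
  apply h7 n (KK k) m s (fnc f) p hpl Q (k + 1) 0 D D _ hDl d2
  · intro j hj
    have hjn := hDlt j hj
    refine ⟨by simpa using hjn, ?_⟩
    intro x y hx hy hxy
    rw [List.getD_eq_getElem _ _ (by simpa using hjn)]
    simp only [List.getElem_map, List.getElem_range]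
    exact hxy j hj
  · intro i hi
    have hi' := hi
    rw [d5, List.mem_filter] at hi'
    have hin := hvl i hi'.1
    refine ⟨hin, by simpa using hi'.2, ?_⟩
    rw [List.getD_eq_getElem _ _ (by rw [hpl]; exact hin)]
    simp only [hp, List.getElem_map, List.getElem_range]
    obtain ⟨j, b⟩ := i
    cases b with
    | true => simpa using hi
    | false =>
      symm
      rw [decide_eq_false_iff_not]
      intro h
      have := List.inj_on_of_nodup_map hnd h hi rfl
      simp at this
  · exact hnd
  · intro x hx
    rw [List.map_map]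
    have e1 : ((List.range n).map ((fun g : List Bool → Bool => g x) ∘
        (fun i => (fun x : List Bool => x.getD i false)))) = x := cors_range n x hx
    rw [e1, d1 x hx, hev x]
  · rw [d4]
    exact a1
  · rw [d3]
    omega
  · exact hbound
  · rw [d4, List.length_map, List.length_range]
    have : m < 2 ^ m := Nat.lt_two_pow_self
    omega

theorem t_CORS (hASG : S_ASG) (hESSL : S_ESSL) (hCNT : S_CNT) (hPW : S_PW) (h1 : S_DEC1)
    (h2 : S_DEC2) (h3 : S_BN) (h4 : S_ESS2) (h5 : S_DL) (h6 : S_SND2) (h7 : S_CPL2)
    (h8 : S_CST) : S_CORS := by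
  rintro k ⟨n, T, s⟩
  by_cases hTl : T.length = 2 ^ n
  swap
  · constructor
    · intro h
      unfold algoS at h
      simp only [Bool.and_eq_true, decide_eq_true_iff] at h
      exact absurd ((cors_len hASG n T).1 ⟨h.1.1.1, h.1.1.2⟩) hTl
    · rintro ⟨h, -⟩
      obtain ⟨-, g, hg, -⟩ := h
      exfalso
      apply hTl
      show T.length = 2 ^ n
      have hg' : T = table n g := hg
      rw [hg', hASG.2.2.2.1 n g, List.length_map, hASG.2.2.1 n]
  obtain ⟨f, hf⟩ := cors_exf hASG n T hTl
  obtain ⟨hlg, hasgT⟩ := (cors_len hASG n T).2 hTl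
  have hA : asgT T = asg n := by
    unfold asgT asg
    rw [hlg]
  have hess : essL (asgT T) T (lg T) = ess f := by
    rw [hA, hf]
    exact hESSL n f _ (by rw [← hf]; exact hlg)
  have huniq : ∀ g : BF n, T = table n g → g = f := by
    intro g hg
    rw [hASG.2.2.2.1 n g] at hg
    exact (cors_uniq hASG n f g (hf.symm.trans hg)).symm
  have hTf : T = table n f := by rw [hASG.2.2.2.1 n f]; exact hf
  have hnear : Near k n T s ↔ s ≤ ess f + k := by
    constructor
    · rintro ⟨g, hg, h⟩
      rwa [huniq g hg] at h
    · intro h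
      exact ⟨f, hTf, h⟩
  have hmcsp : MCSP n T s ↔ 1 ≤ n ∧ SizeLE n f s := by
    constructor
    · rintro ⟨hn, g, hg, h⟩
      refine ⟨hn, ?_⟩
      rwa [huniq g hg] at h
    · rintro ⟨hn, h⟩
      exact ⟨hn, f, hTf, h⟩
  have hkey : 1 ≤ n → s ≤ ess f + k →
      ((((T = T.map fun _ => false) ∨ (T = T.map fun _ => true)) ∧ 1 ≤ s) ∨
        (asg n).any (fun D => (asg n).any fun p =>
          srch (asg n) T p (KK k) (D.length + (k + 2)) s (k + 1) D
            ((List.range n).map fun i => litT (asg n) i false) 0) = true ↔ SizeLE n f s) := by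
    intro hn hs
    constructor
    · rintro (⟨h, hs1⟩ | h)
      · obtain ⟨b, hb⟩ : ∃ b : Bool, T = T.map fun _ => b := by
          rcases h with h | h
          · exact ⟨false, h⟩
          · exact ⟨true, h⟩
        have hcst : ∀ y, f y = b := by
          intro y
          rw [hf, List.map_map] at hb
          have := List.map_inj_left.1 hb (List.ofFn y) ((hASG.1 n _).2 (by simp))
          rwa [cors_fnc_ofFn] at this
        exact (h8 n f s hn (fun x y => by rw [hcst x, hcst y])).2 hs1
      · rw [List.any_eq_true] at h
        obtain ⟨D, hD, h⟩ := h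
        rw [List.any_eq_true] at h
        obtain ⟨p, hp, h⟩ := h
        obtain ⟨g, hg1, hg2⟩ := h6 n T p (KK k) (D.length + (k + 2)) s (k + 1) D
          ((List.range n).map fun i => litT (asg n) i false) 0 ((hASG.1 n D).1 hD)
          ⟨(List.finRange n).map fun i => (fun x : Fin n → Bool => x i), 0,
            cors_vars n (List.finRange n), le_refl 0, by
              intro b hb
              rw [List.mem_map] at hb
              obtain ⟨i, hi, hib⟩ := hb
              have hin := List.mem_range.1 hi
              refine ⟨fun x => x ⟨i, hin⟩, ?_, ?_⟩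
              · rw [List.mem_map]
                exact ⟨⟨i, hin⟩, List.mem_finRange _, rfl⟩
              · rw [← hib]
                unfold litT
                apply List.map_congr_left
                intro x _
                rw [cors_fnc_var n i hin x, Bool.xor_false]⟩ h
        have : f = g := cors_uniq hASG n f g (hf.symm.trans hg1)
        rw [this]
        exact hg2
    · intro h
      by_cases hc : ∀ x y, f x = f y
      · left
        refine ⟨?_, (h8 n f s hn hc).1 h⟩
        have e1 : ∀ b : Bool, f (fun _ => false) = b → T = T.map fun _ => b := by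
          intro b hb
          rw [hf, List.map_map]
          apply List.map_congr_left
          intro x _
          show fnc f x = b
          unfold fnc
          rw [← hb]
          exact hc _ _
        cases hb : f (fun _ => false) with
        | false => exact Or.inl (e1 false hb)
        | true => exact Or.inr (e1 true hb)
      · right
        obtain ⟨D, hD, p, hp, h⟩ := cors_search hCNT h1 h2 h3 h4 h5 h7 hASG k n s hn f hs h
        rw [List.any_eq_true]
        refine ⟨D, hD, ?_⟩
        rw [List.any_eq_true]
        refine ⟨p, hp, ?_⟩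
        rw [hf]
        exact h
  show algoS k (n, T, s) = true ↔ MCSP n T s ∧ Near k n T s
  unfold algoS
  simp only [Bool.and_eq_true, Bool.or_eq_true, decide_eq_true_iff]
  rw [hnear, hmcsp, hess, hA, hlg]
  constructor
  · rintro ⟨⟨-, hn⟩, h1, h2⟩
    exact ⟨⟨hn, (hkey hn h1).1 h2⟩, h1⟩
  · rintro ⟨⟨hn, h1⟩, h2⟩
    exact ⟨⟨⟨rfl, by rw [← hA]; exact hasgT⟩, hn⟩, h2, (hkey hn h2).2 h1⟩

end Pool.Agent.H529R2.MK
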