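import Pool.Agent.H529R2.MK.Defs
import Pool.Agent.H529R2.MQ.CPL

namespace Pool.Agent.H529R2.MK

open Pool.Agent.H529R2.MQ Pool.Agent.H529R2.MQ.CPL

namespace CPL2

variable {n : ℕ} {A B W q x y z : List Bool} {β : List (List Bool → Bool)}

/-- slices of `G`, up to negation -/
def Gs (n : ℕ) (G : List Bool → Bool) (A : List Bool) (g : List Bool → Bool) : Prop :=
  ∀ z : List Bool, z.length = n →
    (∃ τ : Bool, ∀ x : List Bool, x.length = n → G (mx A x z) = xor τ (g (mx A x z))) ∨
    (∀ x : List Bool, x.length = n → G (mx A x z) = G z)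

/-- constant slices, predicted from the skeleton -/
def tyS (β : List (List Bool → Bool)) : Sk → List Bool → Option Bool
  | Sk.v _, _ => none
  | Sk.d j s, z => some (xor ((β.getD j fun _ => false) z) s)
  | Sk.nd o a b, z =>
    if tyS β a z = some (!o) ∨ tyS β b z = some (!o) then some (!o)
    else if tyS β a z = some o ∧ tyS β b z = some o then some o else none

theorem tyS_nd (o : Bool) (a b : Sk) (z : List Bool) : tyS β (Sk.nd o a b) z =
    if tyS β a z = some (!o) ∨ tyS β b z = some (!o) then some (!o)
    else if tyS β a z = some o ∧ tyS β b z = some o then some o else none := rfl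

structure Vs (n : ℕ) (W q : List Bool) (β : List (List Bool → Bool)) (t : Sk) (A : List Bool)
    (g : List Bool → Bool) : Prop where
  len : A.length = n
  dis : ∀ i, A.getD i false = true → W.getD i false = false
  dep : ∀ x y : List Bool, x.length = n → y.length = n →
    (∀ i, A.getD i false = true ∨ W.getD i false = true → x.getD i false = y.getD i false) →
    g x = g y
  typ : ∀ z : List Bool, z.length = n → ∀ c : Bool,
    (∀ x : List Bool, x.length = n → g (mx A x z) = c) ↔ tyS β t z = some c
  top : ∀ z x : List Bool, z.length = n → x.length = n → g (mx A x z) = true →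
    g (mx A q z) = true

section comb

variable {t u : Sk} {g h g' h' G : List Bool → Bool} {o : Bool}

theorem left_un (hg : Vs n W q β t A g) (hB : B.length = n)
    (hBD : ∀ i, B.getD i false = true → W.getD i false = false)
    (hx : x.length = n) (hz : z.length = n) : g (mx (un A B) x z) = g (mx A x z) := by
  apply hg.dep _ _ (mx_len (un_len hg.len hB) hx hz) (mx_len hg.len hx hz)
  intro i hi
  rw [mx_get (un_len hg.len hB) hx hz, mx_get hg.len hx hz, un_get hg.len hB]
  rcases hi with hi | hi
  · rw [hi]; simp
  · have h1 : A.getD i false = false := by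
      by_contra h
      rw [hg.dis i (by simpa using h)] at hi
      exact absurd hi (by simp)
    have h2 : B.getD i false = false := by
      by_contra h
      rw [hBD i (by simpa using h)] at hi
      exact absurd hi (by simp)
    rw [h1, h2]; simp

theorem right_un (hh : Vs n W q β u B h) (hA : A.length = n)
    (hAD : ∀ i, A.getD i false = true → W.getD i false = false)
    (hx : x.length = n) (hz : z.length = n) : h (mx (un A B) x z) = h (mx B x z) := by
  rw [un_comm' hA hh.len]
  exact left_un hh hA hAD hx hz

theorem Vs.comb (hg : Vs n W q β t A g) (hh : Vs n W q β u B h) (hq : q.length = n)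
    (hd : ∀ i, A.getD i false = true → B.getD i false = false) (o : Bool) :
    Vs n W q β (Sk.nd o t u) (un A B) (gt o g h) := by
  have hval : ∀ x z : List Bool, x.length = n → z.length = n → gt o g h (mx (un A B) x z) =
      (if o = true then g (mx A x z) && h (mx B x z) else g (mx A x z) || h (mx B x z)) := by
    intro x z hx hz
    unfold gt
    rw [left_un hg hh.len hh.dis hx hz, right_un hh hg.len hg.dis hx hz]
  refine ⟨un_len hg.len hh.len, fun i hi => ?_, fun x y hx hy hxy => ?_, fun z hz c => ?_,
    fun z x hz hx h1 => ?_⟩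
  · rw [un_get hg.len hh.len, Bool.or_eq_true] at hi
    exact hi.elim (hg.dis i) (hh.dis i)
  · have h1 : g x = g y := hg.dep x y hx hy fun i hi => hxy i (by
      rw [un_get hg.len hh.len, Bool.or_eq_true]
      exact hi.imp_left Or.inl)
    have h2 : h x = h y := hh.dep x y hx hy fun i hi => hxy i (by
      rw [un_get hg.len hh.len, Bool.or_eq_true]
      exact hi.imp_left Or.inr)
    unfold gt
    rw [h1, h2]
  · have hind : ∀ x y : List Bool, x.length = n → y.length = n →
        gt o g h (mx (un A B) (mx A x y) z) =
        (if o = true then g (mx A x z) && h (mx B y z) else g (mx A x z) || h (mx B y z)) := by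
      intro x y hx hy
      rw [hval _ _ (mx_len hg.len hx hy) hz, mx_mx_self hg.len hx hz hy,
        mx_mx_other hg.len hh.len hd hx hz hy]
    have hctrl : (∀ x : List Bool, x.length = n → gt o g h (mx (un A B) x z) = !o) ↔
        (tyS β t z = some (!o) ∨ tyS β u z = some (!o)) := by
      rw [← hg.typ z hz, ← hh.typ z hz]
      constructor
      · intro hc
        by_contra hcon
        push Not at hcon
        obtain ⟨⟨x, hx, hx1⟩, ⟨y, hy, hy1⟩⟩ := hcon
        have h1 := hc _ (mx_len hg.len hx hy)
        rw [hind x y hx hy] at h1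
        revert h1 hx1 hy1
        cases o <;> cases g (mx A x z) <;> cases h (mx B y z) <;> simp
      · rintro (hc | hc) x hx
        · rw [hval x z hx hz, hc x hx]; cases o <;> simp
        · rw [hval x z hx hz, hc x hx]; cases o <;> simp
    have heq : (∀ x : List Bool, x.length = n → gt o g h (mx (un A B) x z) = o) ↔
        (tyS β t z = some o ∧ tyS β u z = some o) := by
      rw [← hg.typ z hz, ← hh.typ z hz]
      constructor
      · intro hc
        constructor
        · intro x hx
          have h1 := hc _ hx
          rw [hval x z hx hz] at h1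
          revert h1
          cases o <;> cases g (mx A x z) <;> cases h (mx B x z) <;> simp
        · intro x hx
          have h1 := hc _ hx
          rw [hval x z hx hz] at h1
          revert h1
          cases o <;> cases g (mx A x z) <;> cases h (mx B x z) <;> simp
      · rintro ⟨h1, h2⟩ x hx
        rw [hval x z hx hz, h1 x hx, h2 x hx]; cases o <;> simp
    rcases eq_or_ne c o with hc | hc
    · subst hc
      rw [heq, tyS_nd]
      constructor
      · rintro ⟨h1, h2⟩
        rw [h1, h2]
        simp
      · intro h1
        split_ifs at h1 with h2 h3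
        · cases c <;> simp at h1
        · exact h3
    · have hc' : c = !o := by cases c <;> cases o <;> simp_all
      subst hc'
      rw [hctrl, tyS_nd]
      constructor
      · intro h1
        rw [if_pos h1]
      · intro h1
        split_ifs at h1 with h2 h3
        · exact h2
        · cases o <;> simp at h1
  · rw [hval x z hx hz] at h1
    rw [hval q z hq hz]
    cases o with
    | true =>
      simp only [if_true, Bool.and_eq_true] at h1 ⊢
      exact ⟨hg.top z x hz hx h1.1, hh.top z x hz hx h1.2⟩
    | false =>
      simp only [Bool.false_eq_true, if_false, Bool.or_eq_true] at h1 ⊢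
      exact h1.imp (hg.top z x hz hx) (hh.top z x hz hx)

theorem Gs.symm_un (hA : A.length = n) (hB : B.length = n) (hG : Gs n G (un A B) (gt o g h)) :
    Gs n G (un B A) (gt o h g) := by
  rw [un_comm' hB hA]
  intro z hz
  rcases hG z hz with ⟨τ, h1⟩ | h1
  · left
    refine ⟨τ, fun x hx => ?_⟩
    rw [h1 x hx]
    unfold gt
    rw [Bool.and_comm, Bool.or_comm]
  · exact Or.inr h1

/-- inheritance -/
theorem Gs.left (hg : Vs n W q β t A g) (hh : Vs n W q β u B h)
    (hd : ∀ i, A.getD i false = true → B.getD i false = false)
    (hG : Gs n G (un A B) (gt o g h)) : Gs n G A g := by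
  intro z hz
  have hmx : ∀ x : List Bool, x.length = n → mx A x z = mx (un A B) (mx A x z) z := by
    intro x hx
    have := mx_un (A := A) (B := B) hg.len hh.len hx hz hz
    rw [mx_self hh.len hz] at this
    exact this
  rcases hG z hz with ⟨τ, h1⟩ | h1
  · have hv : ∀ x : List Bool, x.length = n → G (mx A x z) =
        xor τ (if o = true then g (mx A x z) && h z else g (mx A x z) || h z) := by
      intro x hx
      rw [hmx x hx, h1 _ (mx_len hg.len hx hz)]
      unfold gt
      rw [left_un hg hh.len hh.dis (mx_len hg.len hx hz) hz,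
        right_un hh hg.len hg.dis (mx_len hg.len hx hz) hz, mx_mx_self hg.len hx hz hz,
        mx_mx_other hg.len hh.len hd hx hz hz, mx_self hh.len hz]
    rcases eq_or_ne (h z) o with h2 | h2
    · left
      refine ⟨τ, fun x hx => ?_⟩
      rw [hv x hx, h2]
      cases o <;> simp
    · right
      have h3 : h z = !o := by
        revert h2
        cases h z <;> cases o <;> simp
      have h4 : ∀ x : List Bool, x.length = n → G (mx A x z) = xor τ (!o) := by
        intro x hx
        rw [hv x hx, h3]
        cases o <;> simp
      intro x hx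
      rw [h4 x hx]
      have := h4 z hz
      rw [mx_self hg.len hz] at this
      exact this.symm
  · right
    intro x hx
    rw [hmx x hx]
    exact h1 _ (mx_len hg.len hx hz)

theorem Gs.right (hg : Vs n W q β t A g) (hh : Vs n W q β u B h)
    (hd : ∀ i, A.getD i false = true → B.getD i false = false)
    (hG : Gs n G (un A B) (gt o g h)) : Gs n G B h :=
  Gs.left hh hg (fun i hi => by
    by_contra hc
    rw [hd i (by simpa using hc)] at hi
    exact absurd hi (by simp)) (Gs.symm_un hg.len hh.len hG)

/-- two valid functions whose slices agree up to negation agree -/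
theorem same (hg : Vs n W q β t A g) (hh : Vs n W q β t A h) (hz : z.length = n) (hq : q.length = n)
    {τ : Bool} (hs : ∀ x : List Bool, x.length = n → h (mx A x z) = xor τ (g (mx A x z))) :
    ∀ x : List Bool, x.length = n → h (mx A x z) = g (mx A x z) := by
  cases τ with
  | false =>
    intro x hx
    rw [hs x hx]
    simp
  | true =>
    exfalso
    by_cases hc : ∃ c, ∀ x : List Bool, x.length = n → g (mx A x z) = c
    · obtain ⟨c, hc⟩ := hc
      have h1 := (hh.typ z hz c).2 ((hg.typ z hz c).1 hc)
      have h2 := hs q hq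
      rw [h1 q hq, hc q hq] at h2
      cases c <;> simp at h2
    · push Not at hc
      obtain ⟨x1, hx1, hx2⟩ := hc false
      obtain ⟨y1, hy1, hy2⟩ := hc true
      have h1 := hg.top z x1 hz hx1 (by simpa using hx2)
      have h2 := hh.top z y1 hz hy1 (by
        rw [hs y1 hy1]
        have : g (mx A y1 z) = false := by simpa using hy2
        rw [this]; rfl)
      have h3 := hs q hq
      rw [h1, h2] at h3
      simp at h3

/-- the key step of the exchange lemma -/
theorem slice_eq (hg : Vs n W q β t A g) (hh : Vs n W q β u B h) (hg' : Vs n W q β t A g')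
    (hq : q.length = n)
    (hd : ∀ i, A.getD i false = true → B.getD i false = false)
    (hG' : Gs n G A g') (hz : z.length = n) {τ : Bool}
    (hs : ∀ x : List Bool, x.length = n →
      G (mx (un A B) x z) = xor τ (gt o g h (mx (un A B) x z)))
    (hA : ∃ x : List Bool, x.length = n ∧ g (mx A x z) = o)
    (hB : ∃ x : List Bool, x.length = n ∧ h (mx B x z) = o) :
    ∀ x : List Bool, x.length = n → g' (mx A x z) = g (mx A x z) := by
  obtain ⟨y, hy, hy1⟩ := hB
  by_cases hc : ∀ x : List Bool, x.length = n → g (mx A x z) = o
  · have h1 := (hg'.typ z hz o).2 ((hg.typ z hz o).1 hc)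
    intro x hx
    rw [h1 x hx, hc x hx]
  · push Not at hc
    obtain ⟨x0, hx0, hx1⟩ := hc
    obtain ⟨x2, hx2, hx3⟩ := hA
    have hzl : (mx B y z).length = n := mx_len hh.len hy hz
    have hv : ∀ x : List Bool, x.length = n →
        G (mx A x (mx B y z)) = xor τ (g (mx A x z)) := by
      intro x hx
      rw [mx_un hg.len hh.len hx hz hy, hs _ (mx_len hg.len hx hy)]
      unfold gt
      rw [left_un hg hh.len hh.dis (mx_len hg.len hx hy) hz,
        right_un hh hg.len hg.dis (mx_len hg.len hx hy) hz, mx_mx_self hg.len hx hz hy,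
        mx_mx_other hg.len hh.len hd hx hz hy, hy1]
      cases o <;> simp
    rcases hG' _ hzl with ⟨τ', h1⟩ | h1
    · have hdep : ∀ x : List Bool, x.length = n → g' (mx A x (mx B y z)) = g' (mx A x z) := by
        intro x hx
        apply hg'.dep _ _ (mx_len hg.len hx hzl) (mx_len hg.len hx hz)
        intro i hi
        rw [mx_get hg.len hx hz, mx_get hg.len hx hzl, mx_get hh.len hy hz]
        by_cases hAi : A.getD i false = true
        · rw [if_pos hAi, if_pos hAi]
        · have hDi := hi.resolve_left hAi
          have hBi : B.getD i false = false := by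
            by_contra hb
            rw [hh.dis i (by simpa using hb)] at hDi
            exact absurd hDi (by simp)
          rw [if_neg hAi, if_neg hAi, if_neg (by rw [hBi]; simp)]
      refine same hg hg' hz hq (τ := xor τ τ') fun x hx => ?_
      have e1 := h1 x hx
      rw [hv x hx, hdep x hx] at e1
      revert e1
      cases τ <;> cases τ' <;> cases g (mx A x z) <;> cases g' (mx A x z) <;> simp
    · exfalso
      have e1 := h1 x0 hx0
      have e2 := h1 x2 hx2
      rw [hv x0 hx0] at e1
      rw [hv x2 hx2] at e2
      rw [← e2, hx3] at e1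
      revert e1 hx1
      cases τ <;> cases o <;> cases g (mx A x0 z) <;> simp

/-- the exchange lemma -/
theorem exchange (hg : Vs n W q β t A g) (hh : Vs n W q β u B h) (hg' : Vs n W q β t A g')
    (hh' : Vs n W q β u B h') (hq : q.length = n)
    (hd : ∀ i, A.getD i false = true → B.getD i false = false)
    (hG1 : Gs n G A g') (hG2 : Gs n G B h') (hG : Gs n G (un A B) (gt o g h)) :
    Gs n G (un A B) (gt o g' h') := by
  intro z hz
  rcases hG z hz with ⟨τ, hs⟩ | hs
  swap
  · exact Or.inr hs
  by_cases hconst : ∀ x : List Bool, x.length = n → gt o g h (mx (un A B) x z) = !o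
  · right
    intro x hx
    rw [hs x hx, hconst x hx]
    have := hs z hz
    rw [hconst z hz, mx_self (un_len hg.len hh.len) hz] at this
    exact this.symm
  · push Not at hconst
    obtain ⟨x0, hx0, hx1⟩ := hconst
    have h0 : gt o g h (mx (un A B) x0 z) = o := by
      revert hx1
      cases o <;> cases gt _ g h (mx (un A B) x0 z) <;> simp
    rw [gt_eq_iff, left_un hg hh.len hh.dis hx0 hz, right_un hh hg.len hg.dis hx0 hz] at h0
    have hd' : ∀ i, B.getD i false = true → A.getD i false = false := fun i hi => by
      by_contra hc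
      rw [hd i (by simpa using hc)] at hi
      exact absurd hi (by simp)
    have e1 := slice_eq hg hh hg' hq hd hG1 hz hs ⟨x0, hx0, h0.1⟩ ⟨x0, hx0, h0.2⟩
    have e2 := slice_eq (o := o) (G := G) (τ := τ) hh hg hh' hq hd' hG2 hz (by
      intro x hx
      rw [un_comm' hh.len hg.len, hs x hx]
      unfold gt
      rw [Bool.and_comm, Bool.or_comm]) ⟨x0, hx0, h0.2⟩ ⟨x0, hx0, h0.1⟩
    left
    refine ⟨τ, fun x hx => ?_⟩
    rw [hs x hx]
    unfold gt
    rw [left_un hg hh.len hh.dis hx hz, right_un hh hg.len hg.dis hx hz,
      left_un hg' hh.len hh.dis hx hz, right_un hh' hg.len hg.dis hx hz, e1 x hx, e2 x hx]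

end comb

/-! ### the tables -/

theorem goodS_iff (hASG : S_ASG) {G g : List Bool → Bool} (hA : A.length = n) :
    goodS (asg n) ((asg n).map G) A ((asg n).map g) = true ↔ Gs n G A g := by
  obtain ⟨h1, -, -, -, h5⟩ := hASG
  have hl : ∀ z x : List Bool, z.length = n → x.length = n →
      lk (asg n) ((asg n).map G) (mx A x z) = G (mx A x z) ∧
      lk (asg n) ((asg n).map g) (mx A x z) = g (mx A x z) ∧
      lk (asg n) ((asg n).map G) z = G z := fun z x hz hx =>
    ⟨h5 _ _ _ (mx_len hA hx hz), h5 _ _ _ (mx_len hA hx hz), h5 _ _ _ hz⟩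
  unfold goodS Gs
  rw [List.all_eq_true]
  constructor
  · intro h z hz
    have := h z ((h1 n z).2 hz)
    rw [Bool.or_eq_true, Bool.or_eq_true, List.all_eq_true, List.all_eq_true,
      List.all_eq_true] at this
    rcases this with (h2 | h2) | h2
    · left
      refine ⟨false, fun x hx => ?_⟩
      have := h2 x ((h1 n x).2 hx)
      rw [decide_eq_true_eq, (hl z x hz hx).1, (hl z x hz hx).2.1] at this
      rw [this]; simp
    · left
      refine ⟨true, fun x hx => ?_⟩
      have := h2 x ((h1 n x).2 hx)
      rw [decide_eq_true_eq, (hl z x hz hx).1, (hl z x hz hx).2.1] at this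
      rw [this]; simp
    · right
      intro x hx
      have := h2 x ((h1 n x).2 hx)
      rw [decide_eq_true_eq, (hl z x hz hx).1, (hl z x hz hx).2.2] at this
      exact this
  · intro h z hz
    rw [h1] at hz
    rw [Bool.or_eq_true, Bool.or_eq_true, List.all_eq_true, List.all_eq_true, List.all_eq_true]
    rcases h z hz with ⟨τ, h2⟩ | h2
    · left
      cases τ with
      | false =>
        left
        intro x hx
        rw [h1] at hx
        rw [decide_eq_true_eq, (hl z x hz hx).1, (hl z x hz hx).2.1, h2 x hx]
        simp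
      | true =>
        right
        intro x hx
        rw [h1] at hx
        rw [decide_eq_true_eq, (hl z x hz hx).1, (hl z x hz hx).2.1, h2 x hx]
        simp
    · right
      intro x hx
      rw [h1] at hx
      rw [decide_eq_true_eq, (hl z x hz hx).1, (hl z x hz hx).2.2]
      exact h2 x hx

/-- the top assignment -/
def tp (p : List Bool) : List Bool := p.map fun b => !b

theorem tp_get {p : List Bool} {i : ℕ} (hi : i < p.length) :
    (tp p).getD i false = !(p.getD i false) := by
  unfold tp
  rw [List.getD_eq_getElem _ _ (by simpa using hi), List.getD_eq_getElem _ _ hi]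
  simp

theorem vs_v {p : List Bool} (hp : p.length = n) {i : ℕ} (hi : i < n)
    (hWi : W.getD i false = false) (s : Bool) :
    Vs n W (tp p) β (Sk.v s) (sg n i) (fun x => xor (x.getD i false) (p.getD i false)) where
  len := sg_len n i
  dis := fun j hj => by
    rw [sg_get hi, decide_eq_true_eq] at hj
    rw [hj]; exact hWi
  dep := fun x y hx hy h => by
    have := h i (Or.inl (by rw [sg_get hi]; simp))
    simp only [this]
  typ := fun z hz c => by
    constructor
    · intro h
      have h1 := h (List.replicate n (xor (!c) (p.getD i false))) (by simp)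
      rw [mx_get (sg_len n i) (by simp) hz, sg_get hi, if_pos (by simp),
        List.getD_eq_getElem _ _ (by simpa using hi), List.getElem_replicate] at h1
      exfalso
      revert h1
      cases c <;> cases p.getD i false <;> simp
    · intro h
      exact absurd h (by simp [tyS])
  top := fun z x hz hx h => by
    rw [mx_get (sg_len n i) (by unfold tp; simpa using hp) hz, sg_get hi, if_pos (by simp),
      tp_get (by omega)]
    cases p.getD i false <;> simp

theorem vs_d {p : List Bool} (hW : W.length = n) {j : ℕ}
    (hj : ∀ x y : List Bool, x.length = n → y.length = n →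
      (∀ i, W.getD i false = true → x.getD i false = y.getD i false) →
        (β.getD j fun _ => false) x = (β.getD j fun _ => false) y) (hp : p.length = n) (s : Bool) :
    Vs n W (tp p) β (Sk.d j s) (W.map fun _ => false)
      (fun x => xor ((β.getD j fun _ => false) x) s) := by
  have hl : (W.map fun _ => false).length = n := by simpa using hW
  have h0 : ∀ x z : List Bool, x.length = n → z.length = n → mx (W.map fun _ => false) x z = z := by
    intro x z hx hz
    apply ext_getD (mx_len hl hx hz) hz
    intro i
    rw [mx_get hl hx hz, zero_get, if_neg (by simp)]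
  refine ⟨hl, fun i hi => ?_, fun x y hx hy h => ?_, fun z hz c => ?_, fun z x hz hx h => ?_⟩
  · rw [zero_get] at hi
    exact absurd hi (by simp)
  · have := hj x y hx hy fun i hi => h i (Or.inr hi)
    simp only [this]
  · unfold tyS
    constructor
    · intro h
      have := h z hz
      rw [h0 z z hz hz] at this
      rw [this]
    · intro h x hx
      rw [h0 x z hx hz]
      simpa using h
  · rw [h0 _ z hx hz] at h
    rw [h0 _ z (by unfold tp; simpa using hp) hz]
    exact h

theorem gs_zero (hW : W.length = n) (G g : List Bool → Bool) :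
    Gs n G (W.map fun _ => false) g := by
  intro z hz
  right
  intro x hx
  congr 1
  apply ext_getD (mx_len (by simpa using hW) hx hz) hz
  intro i
  rw [mx_get (by simpa using hW) hx hz, zero_get, if_neg (by simp)]

theorem mem_tabGS {X : List (List Bool)} {f : List Bool} {o : Bool} {t u : List Ent} {e : Ent}
    (he : e ∈ tabGS X f o t u) : ∃ a ∈ t, ∃ b ∈ u, dj a.1 b.1 = true ∧ un a.1 b.1 = e.1 ∧
      goodS X f e.1 (gateT X o a.2 b.2) = true ∧ e.2 = gateT X o a.2 b.2 := by
  unfold tabGS at he
  rw [List.mem_flatMap] at he
  obtain ⟨A, hA, he⟩ := he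
  cases hc : (candS X f o t u A).head? with
  | none => rw [hc] at he; simp at he
  | some p =>
    rw [hc] at he
    simp only [Option.elim_some, List.mem_singleton] at he
    subst he
    have hp : p ∈ candS X f o t u A := List.mem_of_mem_head? (by rw [hc]; rfl)
    unfold candS at hp
    rw [List.mem_filter, List.mem_flatMap] at hp
    obtain ⟨⟨a, ha, hp1⟩, hp2⟩ := hp
    rw [List.mem_map] at hp1
    obtain ⟨b, hb, rfl⟩ := hp1
    rw [Bool.and_eq_true, Bool.and_eq_true, decide_eq_true_eq] at hp2
    exact ⟨a, ha, b, hb, hp2.1.1, hp2.1.2, hp2.2, rfl⟩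

theorem exists_tabGS {X : List (List Bool)} {f : List Bool} {o : Bool} {t u : List Ent}
    {a b : Ent} (ha : a ∈ t) (hb : b ∈ u) (h1 : dj a.1 b.1 = true) (h2 : un a.1 b.1 ∈ X)
    (h3 : goodS X f (un a.1 b.1) (gateT X o a.2 b.2) = true) :
    ∃ e ∈ tabGS X f o t u, e.1 = un a.1 b.1 := by
  have hp : (a, b) ∈ candS X f o t u (un a.1 b.1) := by
    unfold candS
    rw [List.mem_filter, List.mem_flatMap]
    refine ⟨⟨a, ha, List.mem_map.2 ⟨b, hb, rfl⟩⟩, ?_⟩
    rw [Bool.and_eq_true, Bool.and_eq_true, decide_eq_true_eq]
    exact ⟨⟨h1, rfl⟩, h3⟩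
  cases hc : (candS X f o t u (un a.1 b.1)).head? with
  | none =>
    rw [List.head?_eq_none_iff] at hc
    rw [hc] at hp
    simp at hp
  | some p =>
    refine ⟨(un a.1 b.1, gateT X o p.1.2 p.2.2), ?_, rfl⟩
    unfold tabGS
    rw [List.mem_flatMap]
    refine ⟨un a.1 b.1, h2, ?_⟩
    rw [hc]
    simp

/-- the reference is known and depends only on `W` -/
def OK (n : ℕ) (W : List Bool) (β : List (List Bool → Bool)) (j : ℕ) : Prop :=
  j < β.length ∧ ∀ x y : List Bool, x.length = n → y.length = n →
    (∀ i, W.getD i false = true → x.getD i false = y.getD i false) →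
      (β.getD j fun _ => false) x = (β.getD j fun _ => false) y

/-- all references of a skeleton are fine -/
def SOK (n : ℕ) (W : List Bool) (β : List (List Bool → Bool)) : Sk → Prop
  | Sk.v _ => True
  | Sk.d j _ => OK n W β j
  | Sk.nd _ a b => SOK n W β a ∧ SOK n W β b

theorem tabBS_get (hASG : S_ASG) {j : ℕ} (hj : j < β.length) (s : Bool) :
    tabBS (asg n) W (β.map fun g => (asg n).map g) j s =
      [(W.map fun _ => false, (asg n).map fun x => xor ((β.getD j fun _ => false) x) s)] := by
  unfold tabBS
  rw [if_pos (by simpa using hj)]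
  congr 2
  apply List.map_congr_left
  intro x hx
  rw [hASG.1] at hx
  rw [List.getD_eq_getElem _ _ (by simpa using hj), List.getElem_map, hASG.2.2.2.2 _ _ _ hx,
    List.getD_eq_getElem _ _ hj]

/-- all candidates are valid -/
theorem all_vs (hASG : S_ASG) (G : List Bool → Bool) {p : List Bool} (hp : p.length = n)
    (hW : W.length = n) :
    ∀ (t : Sk), SOK n W β t →
      ∀ e ∈ tbS (asg n) ((asg n).map G) p W (β.map fun g => (asg n).map g) t,
      ∃ g : List Bool → Bool, e.2 = (asg n).map g ∧ Vs n W (tp p) β t e.1 g ∧ Gs n G e.1 g := by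
  intro t
  induction t with
  | v s =>
    intro _ e he
    unfold tbS tabVS at he
    rw [List.mem_flatMap] at he
    obtain ⟨i, hi, he⟩ := he
    rw [List.mem_range] at hi
    split_ifs at he with h1
    · rw [List.mem_singleton] at he
      subst he
      rw [Bool.and_eq_true, Bool.not_eq_true'] at h1
      rw [hW] at h1 hi ⊢
      refine ⟨fun x => xor (x.getD i false) (p.getD i false), rfl, vs_v hp hi h1.1 s, ?_⟩
      exact (goodS_iff hASG (sg_len n i)).1 h1.2
    · simp at he
  | d j s =>
    intro hj e he
    unfold tbS at he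
    rw [tabBS_get hASG hj.1] at he
    rw [List.mem_singleton] at he
    subst he
    exact ⟨_, rfl, vs_d hW hj.2 hp s, gs_zero hW G _⟩
  | nd o a b iha ihb =>
    intro hs e he
    unfold tbS at he
    obtain ⟨c, hc, d, hd, h1, h2, h3, h4⟩ := mem_tabGS he
    obtain ⟨g, hg, hvg, hgg⟩ := iha hs.1 c hc
    obtain ⟨h, hh, hvh, hgh⟩ := ihb hs.2 d hd
    rw [hg, hh, gateT_map hASG] at h4 h3
    rw [dj_iff hvg.len hvh.len] at h1
    have hv := hvg.comb hvh (by unfold tp; simpa using hp) h1 o
    rw [h2] at hv
    exact ⟨gt o g h, h4, hv, (goodS_iff hASG hv.len).1 h3⟩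

/-- the variables of a tree -/
def Ss (n : ℕ) (T : Tb) : List Bool :=
  (List.range n).map fun i => decide (i ∈ T.vl.map Prod.fst)

theorem Ss_len (n : ℕ) (T : Tb) : (Ss n T).length = n := by simp [Ss]

theorem Ss_get {T : Tb} (hT : ∀ i ∈ T.vl, i.1 < n) (i : ℕ) :
    (Ss n T).getD i false = decide (i ∈ T.vl.map Prod.fst) := by
  rcases lt_or_ge i n with hi | hi
  · rw [List.getD_eq_getElem _ _ (by rw [Ss_len]; exact hi)]
    simp [Ss]
  · rw [getD_ge (Ss_len n T) hi]
    have : i ∉ T.vl.map Prod.fst := fun h => by
      obtain ⟨a, ha, rfl⟩ := List.mem_map.1 h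
      exact absurd (hT a ha) (by omega)
    exact (decide_eq_false this).symm

theorem Ss_nd {o : Bool} {a b : Tb} (hT : ∀ i ∈ (Tb.nd o a b).vl, i.1 < n) :
    Ss n (Tb.nd o a b) = un (Ss n a) (Ss n b) := by
  have ha : ∀ i ∈ a.vl, i.1 < n := fun i hi => hT i (by simp [Tb.vl, hi])
  have hb : ∀ i ∈ b.vl, i.1 < n := fun i hi => hT i (by simp [Tb.vl, hi])
  apply ext_getD (Ss_len n _) (un_len (Ss_len n a) (Ss_len n b))
  intro i
  rw [un_get (Ss_len n a) (Ss_len n b), Ss_get hT, Ss_get ha, Ss_get hb]
  simp only [Tb.vl, List.map_append, List.mem_append]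
  by_cases h1 : i ∈ a.vl.map Prod.fst <;> by_cases h2 : i ∈ b.vl.map Prod.fst <;> simp [h1, h2]

theorem Ss_disj {o : Bool} {a b : Tb} (hT : ∀ i ∈ (Tb.nd o a b).vl, i.1 < n)
    (hc : ((Tb.nd o a b).vl.map Prod.fst).Nodup) (i : ℕ)
    (hi : (Ss n a).getD i false = true) : (Ss n b).getD i false = false := by
  have ha : ∀ i ∈ a.vl, i.1 < n := fun i hi => hT i (by simp [Tb.vl, hi])
  have hb : ∀ i ∈ b.vl, i.1 < n := fun i hi => hT i (by simp [Tb.vl, hi])
  rw [Ss_get ha, decide_eq_true_eq] at hi
  rw [Ss_get hb, decide_eq_false_iff_not]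
  simp only [Tb.vl, List.map_append] at hc
  exact fun h => (List.nodup_append.1 hc).2.2 i hi i h rfl

/-- the conditions for a tree -/
structure TOK (n : ℕ) (p W : List Bool) (β : List (List Bool → Bool)) (T : Tb) : Prop where
  lt : ∀ i ∈ T.vl, i.1 < n
  dis : ∀ i ∈ T.vl, W.getD i.1 false = false
  sgn : ∀ i ∈ T.vl, i.2 = p.getD i.1 false
  nod : (T.vl.map Prod.fst).Nodup
  ref : ∀ j ∈ T.bs, OK n W β j

theorem TOK.left {p : List Bool} {o : Bool} {a b : Tb} (h : TOK n p W β (Tb.nd o a b)) :
    TOK n p W β a where
  lt := fun i hi => h.lt i (by simp [Tb.vl, hi])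
  dis := fun i hi => h.dis i (by simp [Tb.vl, hi])
  sgn := fun i hi => h.sgn i (by simp [Tb.vl, hi])
  nod := by
    have := h.nod
    simp only [Tb.vl, List.map_append] at this
    exact (List.nodup_append.1 this).1
  ref := fun j hj => h.ref j (by simp [Tb.bs, hj])

theorem TOK.right {p : List Bool} {o : Bool} {a b : Tb} (h : TOK n p W β (Tb.nd o a b)) :
    TOK n p W β b where
  lt := fun i hi => h.lt i (by simp [Tb.vl, hi])
  dis := fun i hi => h.dis i (by simp [Tb.vl, hi])
  sgn := fun i hi => h.sgn i (by simp [Tb.vl, hi])
  nod := by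
    have := h.nod
    simp only [Tb.vl, List.map_append] at this
    exact (List.nodup_append.1 this).2.1
  ref := fun j hj => h.ref j (by simp [Tb.bs, hj])

theorem TOK.sok {p : List Bool} : ∀ {T : Tb}, TOK n p W β T → SOK n W β T.sk
  | Tb.v _ _, _ => trivial
  | Tb.b j _, h => h.ref j (by simp [Tb.bs])
  | Tb.nd _ _ _, h => ⟨h.left.sok, h.right.sok⟩

/-- the function of a tree -/
def tf (β : List (List Bool → Bool)) (T : Tb) (x : List Bool) : Bool :=
  T.ev x (β.map fun g => g x)

theorem tf_nd (o : Bool) (a b : Tb) : tf β (Tb.nd o a b) = gt o (tf β a) (tf β b) := rfl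

theorem getD_map_app (β : List (List Bool → Bool)) (x : List Bool) (j : ℕ) :
    (β.map fun g => g x).getD j false = (β.getD j fun _ => false) x := by
  rcases lt_or_ge j β.length with hj | hj
  · rw [List.getD_eq_getElem _ _ (by simpa using hj), List.getElem_map,
      List.getD_eq_getElem _ _ hj]
  · rw [List.getD_eq_default _ _ (by simpa using hj), List.getD_eq_default _ _ hj]

theorem Ss_v (n i : ℕ) (s : Bool) : Ss n (Tb.v i s) = sg n i := by
  simp [Ss, sg, Tb.vl]

theorem Ss_b (hW : W.length = n) (j : ℕ) (s : Bool) :
    Ss n (Tb.b j s) = W.map fun _ => false := by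
  apply ext_getD (Ss_len n _) (by simpa using hW)
  intro i
  rw [zero_get, Ss_get (by simp [Tb.vl])]
  simp [Tb.vl]

theorem vs_tree {p : List Bool} (hp : p.length = n) (hW : W.length = n) :
    ∀ (T : Tb), TOK n p W β T → Vs n W (tp p) β T.sk (Ss n T) (tf β T) := by
  intro T
  induction T with
  | v i s =>
    intro h
    rw [Ss_v]
    have hs := h.sgn (i, s) (by simp [Tb.vl])
    have := vs_v (β := β) (W := W) hp (h.lt (i, s) (by simp [Tb.vl]))
      (h.dis (i, s) (by simp [Tb.vl])) s
    have h2 : tf β (Tb.v i s) = fun x => xor (x.getD i false) (p.getD i false) := by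
      funext x
      simp only at hs
      rw [← hs]
      rfl
    rw [h2]
    exact this
  | b j s =>
    intro h
    rw [Ss_b hW]
    have := vs_d hW (h.ref j (by simp [Tb.bs])).2 hp s
    have h2 : tf β (Tb.b j s) = fun x => xor ((β.getD j fun _ => false) x) s := by
      funext x
      unfold tf Tb.ev
      rw [getD_map_app]
    rw [h2]
    exact this
  | nd o a b iha ihb =>
    intro h
    rw [Ss_nd h.lt, tf_nd]
    exact (iha h.left).comb (ihb h.right) (by unfold tp; simpa using hp) (Ss_disj h.lt h.nod) o

/-- the table contains a candidate for the set of variables of the true tree -/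
theorem found (hASG : S_ASG) (G : List Bool → Bool) {p : List Bool} (hp : p.length = n)
    (hW : W.length = n) :
    ∀ (T : Tb), TOK n p W β T → Gs n G (Ss n T) (tf β T) →
      ∃ e ∈ tbS (asg n) ((asg n).map G) p W (β.map fun g => (asg n).map g) T.sk,
        e.1 = Ss n T := by
  intro T
  induction T with
  | v i s =>
    intro h hG
    rw [Ss_v] at hG ⊢
    have hi : i < n := h.lt (i, s) (by simp [Tb.vl])
    have hWi : W.getD i false = false := h.dis (i, s) (by simp [Tb.vl])
    have hs : s = p.getD i false := h.sgn (i, s) (by simp [Tb.vl])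
    refine ⟨(sg n i, litP (asg n) p i), ?_, rfl⟩
    unfold Tb.sk tbS tabVS
    rw [List.mem_flatMap, hW]
    refine ⟨i, List.mem_range.2 hi, ?_⟩
    have h2 : goodS (asg n) ((asg n).map G) (sg n i) (litP (asg n) p i) = true := by
      refine (goodS_iff hASG (g := fun x => xor (x.getD i false) (p.getD i false))
        (sg_len n i)).2 ?_
      have h3 : tf β (Tb.v i s) = fun x => xor (x.getD i false) (p.getD i false) := by
        funext x
        rw [← hs]
        rfl
      rw [← h3]
      exact hG
    rw [hWi, h2]
    simp
  | b j s =>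
    intro h hG
    rw [Ss_b hW]
    unfold Tb.sk tbS
    rw [tabBS_get hASG (h.ref j (by simp [Tb.bs])).1]
    exact ⟨_, List.mem_singleton.2 rfl, rfl⟩
  | nd o a b iha ihb =>
    intro h hG
    rw [Ss_nd h.lt] at hG ⊢
    rw [tf_nd] at hG
    have hd := Ss_disj h.lt h.nod
    have va := vs_tree hp hW a h.left
    have vb := vs_tree hp hW b h.right
    have hq : (tp p).length = n := by unfold tp; simpa using hp
    obtain ⟨c, hc, hc1⟩ := iha h.left (Gs.left va vb hd hG)
    obtain ⟨d, hd', hd1⟩ := ihb h.right (Gs.right va vb hd hG)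
    obtain ⟨g', hg', vg', gg'⟩ := all_vs hASG G hp hW _ h.left.sok c hc
    obtain ⟨h', hh', vh', gh'⟩ := all_vs hASG G hp hW _ h.right.sok d hd'
    rw [hc1] at vg' gg'
    rw [hd1] at vh' gh'
    have key := exchange va vb vg' vh' hq hd gg' gh' hG
    have := exists_tabGS (X := asg n) (f := (asg n).map G) (o := o) hc hd'
      (by rw [hc1, hd1]; exact (dj_iff (Ss_len n a) (Ss_len n b)).2 hd)
      (by rw [hc1, hd1]; exact (hASG.1 n _).2 (un_len (Ss_len n a) (Ss_len n b)))
      (by
        rw [hc1, hd1, hg', hh', gateT_map hASG]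
        exact (goodS_iff hASG (un_len (Ss_len n a) (Ss_len n b))).2 key)
    rw [hc1, hd1] at this
    exact this

/-! ### programs -/

theorem tb_congr : ∀ (T : Tb) {x y e e' : List Bool},
    (∀ i ∈ T.vl, x.getD i.1 false = y.getD i.1 false) →
    (∀ j ∈ T.bs, e.getD j false = e'.getD j false) → T.ev x e = T.ev y e'
  | Tb.v i s, x, y, e, e', h, _ => by
    have := h (i, s) (by simp [Tb.vl])
    simp only at this
    simp only [Tb.ev]
    rw [this]
  | Tb.b j s, x, y, e, e', _, h => by
    have := h j (by simp [Tb.bs])
    simp only [Tb.ev]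
    rw [this]
  | Tb.nd o a b, x, y, e, e', h, h' => by
    have h1 := tb_congr a (x := x) (y := y) (e := e) (e' := e')
      (fun i hi => h i (by simp [Tb.vl, hi])) (fun j hj => h' j (by simp [Tb.bs, hj]))
    have h2 := tb_congr b (x := x) (y := y) (e := e) (e' := e')
      (fun i hi => h i (by simp [Tb.vl, hi])) (fun j hj => h' j (by simp [Tb.bs, hj]))
    simp only [Tb.ev]
    rw [h1, h2]

theorem pg_congr : ∀ (P : Pg) {x y e e' ok : List Bool}, P.use ok →
    (∀ i ∈ P.vl, x.getD i.1 false = y.getD i.1 false) →
    (∀ j, ok.getD j false = true → e.getD j false = e'.getD j false) → P.ev x e = P.ev y e'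
  | Pg.ret T, x, y, e, e', ok, hu, h, h' =>
    tb_congr T h fun j hj => h' j (hu j hj)
  | Pg.lt T R, x, y, e, e', ok, hu, h, h' => by
    have h1 : T.ev x e = T.ev y e' := tb_congr T (fun i hi => h i (by simp [Pg.vl, hi]))
      fun j hj => h' j (hu.1 j hj)
    have h2 := pg_congr R (x := x) (y := y) (e := T.ev x e :: e) (e' := T.ev y e' :: e')
      (ok := true :: ok) hu.2 (fun i hi => h i (by simp [Pg.vl, hi])) (by
        intro j hj
        cases j with
        | zero => simp [h1]
        | succ j =>
          have := h' j (by simpa using hj)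
          simpa using this)
    exact h2

theorem lv_eq : ∀ T : Tb, T.sk.lv = T.gates + 1
  | Tb.v _ _ => rfl
  | Tb.b _ _ => rfl
  | Tb.nd _ a b => by
    have h1 := lv_eq a
    have h2 := lv_eq b
    simp only [Tb.sk, Sk.lv, Tb.gates]
    omega

theorem sk_lt {N : ℕ} : ∀ T : Tb, (∀ j ∈ T.bs, j < N) → T.sk.lt N
  | Tb.v _ _, _ => trivial
  | Tb.b j _, h => h j (by simp [Tb.bs])
  | Tb.nd _ a b, h => ⟨sk_lt a fun j hj => h j (by simp [Tb.bs, hj]),
      sk_lt b fun j hj => h j (by simp [Tb.bs, hj])⟩

theorem srch_of_srch0 {X : List (List Bool)} {f p : List Bool} {K m s : ℕ} {W : List Bool}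
    {B : List (List Bool)} {cost : ℕ} (h : srch0 X f p K m s W B cost = true) (c : ℕ) :
    srch X f p K m s c W B cost = true := by
  cases c with
  | zero => exact h
  | succ c =>
    unfold srch
    rw [h]
    rfl

theorem exists_word (hPW : S_PW) (hRUN : S_RUN2) {f p : List Bool} {K m : ℕ}
    {B : List (List Bool)} {T : Tb} (h1 : (T.sk.enc m).length ≤ K * n)
    (h2 : T.sk.lt (2 ^ m)) : ∃ w ∈ pw (asg n) K,
      (tbS (asg n) f p W B T.sk, T.sk.lv) ∈ (runS (asg n) f p W B m w).2 :=
  ⟨T.sk.enc m ++ List.replicate (K * n - (T.sk.enc m).length) true,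
    (hPW n K _).2 (by simp; omega), hRUN _ _ _ _ _ _ _ _ h2⟩

/-- the found function agrees with the true one wherever it matters -/
theorem replace {t : Sk} {G g h : List Bool → Bool} (vg : Vs n W q β t A g)
    (vh : Vs n W q β t A h) (hq : q.length = n) (gg : Gs n G A g) (hz : z.length = n)
    {τ : Bool} (hs : ∀ x : List Bool, x.length = n → G (mx A x z) = xor τ (h (mx A x z))) :
    g z = h z := by
  rcases gg z hz with ⟨τ', h1⟩ | h1
  · have := same vg vh hz hq (τ := xor τ τ') (fun x hx => by
      have e1 := h1 x hx
      rw [hs x hx] at e1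
      revert e1
      cases τ <;> cases τ' <;> cases g (mx A x z) <;> cases h (mx A x z) <;> simp) z hz
    rw [mx_self vg.len hz] at this
    exact this.symm
  · have hc : ∀ x : List Bool, x.length = n → h (mx A x z) = xor τ (G z) := fun x hx => by
      have e1 := h1 x hx
      rw [hs x hx] at e1
      rw [← e1]
      cases τ <;> simp
    have e2 := (vg.typ z hz _).2 ((vh.typ z hz _).1 hc) z hz
    have e3 := hc z hz
    rw [mx_self vg.len hz] at e2 e3
    rw [e2, e3]

end CPL2

open CPL2 in
theorem t_CPL2 (hASG : S_ASG) (hPW : S_PW) (hRUN : S_RUN2) : S_CPL2 := by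
  intro n K m s G p hp P
  have hq : (tp p).length = n := by unfold tp; simpa using hp
  induction P with
  | ret T =>
    intro c cost W ok β hW huse hok hvl hnod hev hlets hgates hlen hm
    have hT : TOK n p W β T := ⟨fun i hi => (hvl i hi).1, fun i hi => (hvl i hi).2.1,
      fun i hi => (hvl i hi).2.2, hnod, fun j hj => hok j (huse j hj)⟩
    have hG : ∀ x : List Bool, x.length = n → tf β T x = G x := hev
    have vT := vs_tree hp hW T hT
    have gT : Gs n G (Ss n T) (tf β T) := fun z hz => Or.inl ⟨false, fun x hx => by
      rw [hG _ (mx_len (Ss_len n T) hx hz)]; simp⟩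
    obtain ⟨e, he, he1⟩ := found hASG G hp hW T hT gT
    obtain ⟨g, hg, vg, gg⟩ := all_vs hASG G hp hW _ hT.sok e he
    rw [he1] at vg gg
    have hgG : e.2 = (asg n).map G := by
      rw [hg]
      apply List.map_congr_left
      intro z hz
      rw [hASG.1] at hz
      rw [replace vg vT hq gg hz (τ := false) (fun x hx => by
        rw [hG _ (mx_len (Ss_len n T) hx hz)]; simp), hG z hz]
    apply srch_of_srch0
    have hjm : ∀ j ∈ T.bs, j < 2 ^ m := fun j hj => by
      have := (hok j (huse j hj)).1
      simp only [Pg.lets] at hm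
      omega
    obtain ⟨w, hw, hw1⟩ := exists_word (W := W) (f := (asg n).map G) (p := p)
      (B := β.map fun g => (asg n).map g) hPW hRUN (T := T) hlen (sk_lt T hjm)
    unfold srch0
    rw [List.any_eq_true]
    refine ⟨w, hw, ?_⟩
    rw [List.any_eq_true]
    refine ⟨_, hw1, ?_⟩
    rw [Bool.and_eq_true, decide_eq_true_eq, List.any_eq_true]
    refine ⟨?_, e, he, decide_eq_true hgG⟩
    simp only [lv_eq]
    simp only [Pg.gates] at hgates
    omega
  | lt T R ih =>
    intro c cost W ok β hW huse hok hvl hnod hev hlets hgates hlen hm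
    simp only [Pg.lets] at hlets hm
    simp only [Pg.gates] at hgates
    simp only [Pg.len] at hlen
    simp only [Pg.vl, List.map_append] at hnod
    have hTl : ∀ i ∈ T.vl, i ∈ (Pg.lt T R).vl := fun i hi => by simp [Pg.vl, hi]
    have hRl : ∀ i ∈ R.vl, i ∈ (Pg.lt T R).vl := fun i hi => by simp [Pg.vl, hi]
    have hT : TOK n p W β T := ⟨fun i hi => (hvl i (hTl i hi)).1,
      fun i hi => (hvl i (hTl i hi)).2.1, fun i hi => (hvl i (hTl i hi)).2.2,
      (List.nodup_append.1 hnod).1, fun j hj => hok j (huse.1 j hj)⟩
    have hRA : ∀ i ∈ R.vl, (Ss n T).getD i.1 false = false := fun i hi => by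
      rw [Ss_get hT.lt, decide_eq_false_iff_not]
      exact fun h => (List.nodup_append.1 hnod).2.2 i.1 h i.1
        (List.mem_map.2 ⟨i, hi, rfl⟩) rfl
    have vT := vs_tree hp hW T hT
    have hρ : ∀ x z : List Bool, x.length = n → z.length = n →
        G (mx (Ss n T) x z) =
          R.ev z (tf β T (mx (Ss n T) x z) :: (β.map fun g => g z)) := by
      intro x z hx hz
      have hy := mx_len (Ss_len n T) hx hz
      rw [← hev _ hy]
      change R.ev _ (tf β T (mx (Ss n T) x z) :: _) = _
      apply pg_congr R huse.2
      · intro i hi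
        rw [mx_get (Ss_len n T) hx hz, hRA i hi]
        simp
      · intro j hj
        cases j with
        | zero => rfl
        | succ j =>
          have hj' : ok.getD j false = true := by simpa using hj
          have := (hok j hj').2 _ _ hy hz (fun i hi => by
            rw [mx_get (Ss_len n T) hx hz]
            have : (Ss n T).getD i false = false := by
              by_contra hc
              rw [vT.dis i (by simpa using hc)] at hi
              exact absurd hi (by simp)
            rw [this]
            simp)
          have e1 := getD_map_app β (mx (Ss n T) x z) j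
          have e2 := getD_map_app β z j
          rw [List.getD_cons_succ, List.getD_cons_succ, e1, e2]
          exact this
    have gT : Gs n G (Ss n T) (tf β T) := by
      intro z hz
      by_cases hc : R.ev z (false :: (β.map fun g => g z)) = R.ev z (true :: (β.map fun g => g z))
      · right
        intro x hx
        have e1 := hρ x z hx hz
        have e2 := hρ z z hz hz
        rw [mx_self (Ss_len n T) hz] at e2
        rw [e1, e2]
        cases tf β T (mx (Ss n T) x z) <;> cases tf β T z <;> simp [hc]
      · left
        refine ⟨R.ev z (false :: (β.map fun g => g z)), fun x hx => ?_⟩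
        rw [hρ x z hx hz]
        revert hc
        cases tf β T (mx (Ss n T) x z) <;> cases R.ev z (false :: (β.map fun g => g z)) <;>
          cases R.ev z (true :: (β.map fun g => g z)) <;> simp
    obtain ⟨e, he, he1⟩ := found hASG G hp hW T hT gT
    obtain ⟨g, hg, vg, gg⟩ := all_vs hASG G hp hW _ hT.sok e he
    rw [he1] at vg gg
    cases c with
    | zero => omega
    | succ c =>
      have hIH := ih c (cost + (T.sk.lv - 1)) (un W (Ss n T)) (true :: ok) (g :: β)
        (un_len hW (Ss_len n T)) huse.2 (by
          intro j hj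
          cases j with
          | zero =>
            refine ⟨by simp, fun x y hx hy hxy => ?_⟩
            simp only [List.getD_cons_zero]
            refine vg.dep x y hx hy fun i hi => hxy i ?_
            rw [un_get hW (Ss_len n T), Bool.or_eq_true]
            exact hi.symm
          | succ j =>
            have hj' : ok.getD j false = true := by simpa using hj
            refine ⟨by simpa using (hok j hj').1, fun x y hx hy hxy => ?_⟩
            simp only [List.getD_cons_succ]
            refine (hok j hj').2 x y hx hy fun i hi => hxy i ?_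
            rw [un_get hW (Ss_len n T), hi]
            rfl)
        (fun i hi => ⟨(hvl i (hRl i hi)).1, by
          rw [un_get hW (Ss_len n T), (hvl i (hRl i hi)).2.1, hRA i hi]
          rfl, (hvl i (hRl i hi)).2.2⟩)
        (List.nodup_append.1 hnod).2.1
        (by
          intro z hz
          rw [List.map_cons]
          by_cases hc : R.ev z (false :: (β.map fun g => g z)) =
              R.ev z (true :: (β.map fun g => g z))
          · have e2 := hρ z z hz hz
            rw [mx_self (Ss_len n T) hz] at e2
            rw [e2]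
            cases tf β T z <;> cases g z <;> simp [hc]
          · have e2 := hρ z z hz hz
            rw [mx_self (Ss_len n T) hz] at e2
            rw [e2, replace vg vT hq gg hz (τ := R.ev z (false :: (β.map fun g => g z)))
              (fun x hx => by
                rw [hρ x z hx hz]
                revert hc
                cases tf β T (mx (Ss n T) x z) <;>
                  cases R.ev z (false :: (β.map fun g => g z)) <;>
                  cases R.ev z (true :: (β.map fun g => g z)) <;> simp)])
        (by omega) (by rw [lv_eq]; omega) (by omega)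
        (by simp only [List.length_cons]; omega)
      have hjm : ∀ j ∈ T.bs, j < 2 ^ m := fun j hj => by
        have := (hok j (huse.1 j hj)).1
        omega
      obtain ⟨w, hw, hw1⟩ := exists_word (W := W) (f := (asg n).map G) (p := p)
        (B := β.map fun g => (asg n).map g) hPW hRUN (T := T) (n := n) (K := K) (m := m)
        (by omega) (sk_lt T hjm)
      unfold srch
      rw [Bool.or_eq_true, List.any_eq_true]
      right
      refine ⟨w, hw, ?_⟩
      rw [List.any_eq_true]
      refine ⟨_, hw1, ?_⟩
      rw [List.any_eq_true]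
      refine ⟨e, he, ?_⟩
      rw [he1, hg]
      exact hIH

end Pool.Agent.H529R2.MK
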