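import Pool.Agent.H529R2.MK.Defs

namespace Pool.Agent.H529R2.MK

open Pool.Agent.NPC Pool.Agent.H532R2.MC Pool.Agent.H529R2.MQ

namespace CST

/-- circuits without gates compute literals -/
theorem lit {n : ℕ} {L : List (BF n)} {t : ℕ} (h : Circuit n L t) :
    t = 0 → ∀ f ∈ L, ∃ (i : Fin n) (b : Bool), ∀ x, f x = xor (x i) b := by
  induction h with
  | nil => intro _ f hf; simp at hf
  | @var L s i _ ih =>
    intro h0 f hf
    rw [List.mem_cons] at hf
    rcases hf with rfl | hf
    · exact ⟨i, false, fun x => by simp⟩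
    · exact ih h0 f hf
  | @not L s g _ hg ih =>
    intro h0 f hf
    rw [List.mem_cons] at hf
    rcases hf with rfl | hf
    · obtain ⟨i, b, h⟩ := ih h0 g hg
      refine ⟨i, !b, fun x => ?_⟩
      show (!g x) = (x i ^^ !b)
      rw [h x]
      cases x i <;> cases b <;> rfl
    · exact ih h0 f hf
  | and _ _ _ _ => intro h0; omega
  | or _ _ _ _ => intro h0; omega

end CST

/-- Constant functions. -/
theorem t_CST : S_CST := by
  intro n f s hn hf
  constructor
  · rintro ⟨L, t, hc, hL, ht⟩
    by_contra hs
    have h0 : t = 0 := by omega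
    obtain ⟨i, b, h⟩ := CST.lit hc h0 f hL
    have h1 := hf (fun _ => false) (fun _ => true)
    rw [h, h] at h1
    cases b <;> simp at h1
  · intro hs
    obtain ⟨i⟩ : Nonempty (Fin n) := ⟨⟨0, hn⟩⟩
    have c1 : Circuit n [fun x => x i] 0 := Circuit.var i Circuit.nil
    have c2 : Circuit n [fun x => !(x i), fun x => x i] 0 :=
      Circuit.not (f := fun x => x i) c1 (List.mem_singleton.mpr rfl)
    rcases hb : f (fun _ => false) with _ | _
    · refine ⟨_, 1, Circuit.and (f := fun x => x i) (g := fun x => !(x i)) c2
        (by simp) (by simp), ?_, hs⟩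
      rw [List.mem_cons]
      left
      funext x
      rw [hf x (fun _ => false), hb]
      cases x i <;> rfl
    · refine ⟨_, 1, Circuit.or (f := fun x => x i) (g := fun x => !(x i)) c2
        (by simp) (by simp), ?_, hs⟩
      rw [List.mem_cons]
      left
      funext x
      rw [hf x (fun _ => false), hb]
      cases x i <;> rfl

end Pool.Agent.H529R2.MK
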