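import Pool.Agent.H529R2.MK.Defs

/-!
# Circuits as programs
-/

namespace Pool.Agent.H529R2.MK

open Pool.Agent.NPC Pool.Agent.H532R2.MC Pool.Agent.H529R2.MQ

/-- The values of the definitions of a prefix list (the last definition first). -/
def DEC1_env : List Tb → List Bool → List Bool
  | [], _ => []
  | T :: ps, x => T.ev x (DEC1_env ps x) :: DEC1_env ps x

/-- The program of a prefix list. -/
def DEC1_wrap : List Tb → Pg → Pg
  | [], R => R
  | T :: ps, R => DEC1_wrap ps (Pg.lt T R)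

/-- A leaf with a variable below `n` or a reference below `m`. -/
def DEC1_leaf (n m : ℕ) (l : Tb) : Prop :=
  (∃ i s, l = Tb.v i s ∧ i < n) ∨ ∃ j s, l = Tb.b j s ∧ j < m

/-- Each definition is a gate with two leaves. -/
def DEC1_ok (n : ℕ) : List Tb → Prop
  | [] => True
  | T :: ps => (∃ o l1 l2, T = Tb.nd o l1 l2 ∧ DEC1_leaf n ps.length l1 ∧
      DEC1_leaf n ps.length l2) ∧ DEC1_ok n ps

theorem DEC1_ev (ps : List Tb) (x : List Bool) :
    ∀ R : Pg, (DEC1_wrap ps R).ev x [] = R.ev x (DEC1_env ps x) := by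
  induction ps with
  | nil => intro R; rfl
  | cons T ps ih =>
    intro R
    show (DEC1_wrap ps (Pg.lt T R)).ev x [] = _
    rw [ih]
    rfl

theorem DEC1_leaf_bs {n m : ℕ} {l : Tb} (h : DEC1_leaf n m l) :
    ∀ j ∈ l.bs, (List.replicate m true).getD j false = true := by
  intro j hj
  rcases h with ⟨i, s, rfl, hi⟩ | ⟨k, s, rfl, hk⟩
  · simp [Tb.bs] at hj
  · simp only [Tb.bs, List.mem_singleton] at hj
    subst hj
    rw [List.getD_eq_getElem _ _ (by simpa using hk)]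
    simp

theorem DEC1_leaf_vl {n m : ℕ} {l : Tb} (h : DEC1_leaf n m l) :
    ∀ i ∈ l.vl, i.1 < n := by
  intro j hj
  rcases h with ⟨i, s, rfl, hi⟩ | ⟨k, s, rfl, hk⟩
  · simp only [Tb.vl, List.mem_singleton] at hj
    subst hj
    exact hi
  · simp [Tb.vl] at hj

theorem DEC1_leaf_gates {n m : ℕ} {l : Tb} (h : DEC1_leaf n m l) : l.gates = 0 := by
  rcases h with ⟨i, s, rfl, hi⟩ | ⟨k, s, rfl, hk⟩ <;> rfl

theorem DEC1_use (n : ℕ) (ps : List Tb) :
    ∀ R : Pg, DEC1_ok n ps → R.use (List.replicate ps.length true) →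
      (DEC1_wrap ps R).use [] := by
  induction ps with
  | nil => intro R _ h; exact h
  | cons T ps ih =>
    intro R hok hR
    obtain ⟨⟨o, l1, l2, rfl, h1, h2⟩, hok'⟩ := hok
    refine ih _ hok' ⟨?_, ?_⟩
    · intro j hj
      simp only [Tb.bs, List.mem_append] at hj
      rcases hj with hj | hj
      · exact DEC1_leaf_bs h1 j hj
      · exact DEC1_leaf_bs h2 j hj
    · rw [List.length_cons, List.replicate_succ] at hR
      exact hR

theorem DEC1_vl (n : ℕ) (ps : List Tb) :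
    ∀ R : Pg, DEC1_ok n ps → (∀ i ∈ R.vl, i.1 < n) →
      ∀ i ∈ (DEC1_wrap ps R).vl, i.1 < n := by
  induction ps with
  | nil => intro R _ h; exact h
  | cons T ps ih =>
    intro R hok hR
    obtain ⟨⟨o, l1, l2, rfl, h1, h2⟩, hok'⟩ := hok
    refine ih _ hok' ?_
    intro i hi
    simp only [Pg.vl, Tb.vl, List.mem_append] at hi
    rcases hi with (hi | hi) | hi
    · exact DEC1_leaf_vl h1 i hi
    · exact DEC1_leaf_vl h2 i hi
    · exact hR i hi

theorem DEC1_gates (n : ℕ) (ps : List Tb) :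
    ∀ R : Pg, DEC1_ok n ps → (DEC1_wrap ps R).gates = ps.length + R.gates := by
  induction ps with
  | nil => intro R _; simp [DEC1_wrap]
  | cons T ps ih =>
    intro R hok
    obtain ⟨⟨o, l1, l2, rfl, h1, h2⟩, hok'⟩ := hok
    show (DEC1_wrap ps (Pg.lt (Tb.nd o l1 l2) R)).gates = _
    rw [ih _ hok']
    simp only [Pg.gates, Tb.gates, DEC1_leaf_gates h1, DEC1_leaf_gates h2, List.length_cons]
    omega

/-- Shift a leaf past a new definition. -/
theorem DEC1_shift {n m : ℕ} {l : Tb} (h : DEC1_leaf n m l) :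
    ∃ l' : Tb, DEC1_leaf n (m + 1) l' ∧ ∀ (x e : List Bool) (c : Bool),
      l'.ev x (c :: e) = l.ev x e := by
  rcases h with ⟨i, s, rfl, hi⟩ | ⟨k, s, rfl, hk⟩
  · exact ⟨Tb.v i s, Or.inl ⟨i, s, rfl, hi⟩, fun x e c => rfl⟩
  · refine ⟨Tb.b (k + 1) s, Or.inr ⟨k + 1, s, rfl, by omega⟩, fun x e c => ?_⟩
    simp [Tb.ev]

theorem DEC1_gate {n : ℕ} {L : List (BF n)} {f g : BF n} {ps : List Tb} (o : Bool)
    (hok : DEC1_ok n ps)
    (hL : ∀ h ∈ L, ∃ l, DEC1_leaf n ps.length l ∧ ∀ x, l.ev x (DEC1_env ps x) = fnc h x)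
    (hf : f ∈ L) (hg : g ∈ L) :
    ∃ qs : List Tb, DEC1_ok n qs ∧ qs.length = ps.length + 1 ∧
      ∀ h ∈ (fun x => if o = true then f x && g x else f x || g x) :: L,
        ∃ l, DEC1_leaf n qs.length l ∧ ∀ x, l.ev x (DEC1_env qs x) = fnc h x := by
  obtain ⟨l1, h1, e1⟩ := hL f hf
  obtain ⟨l2, h2, e2⟩ := hL g hg
  refine ⟨Tb.nd o l1 l2 :: ps, ⟨⟨o, l1, l2, rfl, h1, h2⟩, hok⟩, rfl, ?_⟩
  intro h hh
  rw [List.mem_cons] at hh
  rcases hh with rfl | hh
  · refine ⟨Tb.b 0 false, Or.inr ⟨0, false, rfl, by simp⟩, fun x => ?_⟩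
    have e3 : (Tb.b 0 false).ev x (DEC1_env (Tb.nd o l1 l2 :: ps) x) =
        (Tb.nd o l1 l2).ev x (DEC1_env ps x) := by
      simp [Tb.ev, DEC1_env]
    rw [e3]
    show (if o = true then l1.ev x (DEC1_env ps x) && l2.ev x (DEC1_env ps x)
      else l1.ev x (DEC1_env ps x) || l2.ev x (DEC1_env ps x)) = _
    rw [e1, e2]
    rfl
  · obtain ⟨l, hl, e⟩ := hL h hh
    obtain ⟨l', hl', e'⟩ := DEC1_shift hl
    refine ⟨l', hl', fun x => ?_⟩
    show l'.ev x ((Tb.nd o l1 l2).ev x (DEC1_env ps x) :: DEC1_env ps x) = _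
    rw [e', e]

theorem DEC1_main {n : ℕ} {L : List (BF n)} {s : ℕ} (hC : Circuit n L s) :
    ∃ ps : List Tb, DEC1_ok n ps ∧ ps.length = s ∧
      ∀ h ∈ L, ∃ l, DEC1_leaf n ps.length l ∧ ∀ x, l.ev x (DEC1_env ps x) = fnc h x := by
  induction hC with
  | nil => exact ⟨[], trivial, rfl, by simp⟩
  | @var L s i hC ih =>
    obtain ⟨ps, hok, hlen, hL⟩ := ih
    refine ⟨ps, hok, hlen, ?_⟩
    intro h hh
    rw [List.mem_cons] at hh
    rcases hh with rfl | hh
    · refine ⟨Tb.v i false, Or.inl ⟨i, false, rfl, i.2⟩, fun x => ?_⟩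
      simp [Tb.ev, fnc]
    · exact hL h hh
  | @not L s f hC hf ih =>
    obtain ⟨ps, hok, hlen, hL⟩ := ih
    refine ⟨ps, hok, hlen, ?_⟩
    intro h hh
    rw [List.mem_cons] at hh
    rcases hh with rfl | hh
    · obtain ⟨l, hl, e⟩ := hL f hf
      rcases hl with ⟨i, t, rfl, hi⟩ | ⟨k, t, rfl, hk⟩
      · refine ⟨Tb.v i (!t), Or.inl ⟨i, !t, rfl, hi⟩, fun x => ?_⟩
        have e4 := e x
        show xor (x.getD i false) (!t) = !(fnc f x)
        rw [← e4]
        show xor (x.getD i false) (!t) = !(xor (x.getD i false) t)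
        cases x.getD i false <;> cases t <;> rfl
      · refine ⟨Tb.b k (!t), Or.inr ⟨k, !t, rfl, hk⟩, fun x => ?_⟩
        have e4 := e x
        show xor ((DEC1_env ps x).getD k false) (!t) = !(fnc f x)
        rw [← e4]
        show xor ((DEC1_env ps x).getD k false) (!t) = !(xor ((DEC1_env ps x).getD k false) t)
        cases (DEC1_env ps x).getD k false <;> cases t <;> rfl
    · exact hL h hh
  | @and L s f g hC hf hg ih =>
    obtain ⟨ps, hok, hlen, hL⟩ := ih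
    obtain ⟨qs, h1, h2, h3⟩ := DEC1_gate true hok hL hf hg
    refine ⟨qs, h1, by omega, ?_⟩
    simpa using h3
  | @or L s f g hC hf hg ih =>
    obtain ⟨ps, hok, hlen, hL⟩ := ih
    obtain ⟨qs, h1, h2, h3⟩ := DEC1_gate false hok hL hf hg
    refine ⟨qs, h1, by omega, ?_⟩
    simpa using h3

theorem t_DEC1 : S_DEC1 := by
  intro n f s hs
  obtain ⟨L, t, hC, hf, ht⟩ := hs
  obtain ⟨ps, hok, hlen, hL⟩ := DEC1_main hC
  obtain ⟨l, hl, e⟩ := hL f hf
  refine ⟨DEC1_wrap ps (Pg.ret l), ?_, ?_, ?_, ?_⟩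
  · exact DEC1_use n ps _ hok (DEC1_leaf_bs hl)
  · exact DEC1_vl n ps _ hok (DEC1_leaf_vl hl)
  · rw [DEC1_gates n ps _ hok]
    show ps.length + l.gates ≤ s
    rw [DEC1_leaf_gates hl]
    omega
  · intro x
    rw [DEC1_ev]
    exact e x

end Pool.Agent.H529R2.MK
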