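import Pool.Agent.H529R2.MK.Defs

/-!
# DEC2: inlining
-/

namespace Pool.Agent.H529R2.MK

open Pool.Agent.NPC Pool.Agent.H532R2.MC Pool.Agent.H529R2.MQ

namespace DEC2

/-- negate if `s` -/
def ng (s : Bool) : Tb → Tb
  | Tb.v i t => Tb.v i (xor t s)
  | Tb.b j t => Tb.b j (xor t s)
  | Tb.nd o l r => Tb.nd (xor o s) (ng s l) (ng s r)

/-- shift the references -/
def sh (c : ℕ) : Tb → Tb
  | Tb.v i t => Tb.v i t
  | Tb.b j t => Tb.b (j + c) t
  | Tb.nd o l r => Tb.nd o (sh c l) (sh c r)

/-- substitution of the result number `d` by `T` -/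
def tsub (T : Tb) (d : ℕ) : Tb → Tb
  | Tb.v i t => Tb.v i t
  | Tb.b j t => if j < d then Tb.b j t else if j = d then ng t (sh d T) else Tb.b (j - 1) t
  | Tb.nd o l r => Tb.nd o (tsub T d l) (tsub T d r)

/-- substitution in programs -/
def psub (T : Tb) : ℕ → Pg → Pg
  | d, Pg.ret U => Pg.ret (tsub T d U)
  | d, Pg.lt U R => Pg.lt (tsub T d U) (psub T (d + 1) R)

/-- inline the definitions which are used at most once -/
def norm : Pg → Pg
  | Pg.ret T => Pg.ret T
  | Pg.lt T R => if (norm R).cnt 0 ≤ 1 then psub T 0 (norm R) else Pg.lt T (norm R)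

/-! ### values -/

theorem ev_ng (s : Bool) (T : Tb) (x e : List Bool) : (ng s T).ev x e = xor (T.ev x e) s := by
  induction T with
  | v i t => simp only [ng, Tb.ev]; cases t <;> cases s <;> simp
  | b j t => simp only [ng, Tb.ev]; cases t <;> cases s <;> simp
  | nd o l r ihl ihr =>
    simp only [ng, Tb.ev, ihl, ihr]
    cases o <;> cases s <;> cases l.ev x e <;> cases r.ev x e <;> rfl

theorem ev_sh (c : ℕ) (T : Tb) (x e1 e : List Bool) (h : e1.length = c) :
    (sh c T).ev x (e1 ++ e) = T.ev x e := by
  induction T with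
  | v i t => rfl
  | b j t =>
    simp only [sh, Tb.ev]
    rw [List.getD_append_right _ _ _ _ (by omega)]
    congr 2
    omega
  | nd o l r ihl ihr => simp only [sh, Tb.ev, ihl, ihr]

theorem ev_tsub (T : Tb) (d : ℕ) (U : Tb) (x e1 e : List Bool) (h : e1.length = d) :
    (tsub T d U).ev x (e1 ++ e) = U.ev x (e1 ++ T.ev x e :: e) := by
  induction U with
  | v i t => rfl
  | b j t =>
    unfold tsub
    rcases Nat.lt_trichotomy j d with hj | hj | hj
    · rw [if_pos hj]
      simp only [Tb.ev]
      rw [List.getD_append _ _ _ _ (by omega), List.getD_append _ _ _ _ (by omega)]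
    · rw [if_neg (by omega), if_pos hj, ev_ng, ev_sh d T x e1 e h]
      simp only [Tb.ev]
      rw [List.getD_append_right _ _ _ _ (by omega)]
      have : j - e1.length = 0 := by omega
      rw [this]
      rfl
    · rw [if_neg (by omega), if_neg (by omega)]
      simp only [Tb.ev]
      rw [List.getD_append_right _ _ _ _ (by omega), List.getD_append_right _ _ _ _ (by omega)]
      obtain ⟨q, hq⟩ : ∃ q, j - e1.length = q + 1 := ⟨j - e1.length - 1, by omega⟩
      have hq2 : j - 1 - e1.length = q := by omega
      rw [hq, hq2, List.getD_cons_succ]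
  | nd o l r ihl ihr => simp only [tsub, Tb.ev, ihl, ihr]

theorem ev_psub (T : Tb) (P : Pg) : ∀ (d : ℕ) (x e1 e : List Bool), e1.length = d →
    (psub T d P).ev x (e1 ++ e) = P.ev x (e1 ++ T.ev x e :: e) := by
  induction P with
  | ret U =>
    intro d x e1 e h
    exact ev_tsub T d U x e1 e h
  | lt U R ih =>
    intro d x e1 e h
    simp only [psub, Pg.ev]
    rw [ev_tsub T d U x e1 e h]
    exact ih (d + 1) x (U.ev x (e1 ++ T.ev x e :: e) :: e1) e (by simp [h])

/-! ### leaves and gates -/

theorem vl_ng (s : Bool) (T : Tb) : (ng s T).vl.map Prod.fst = T.vl.map Prod.fst := by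
  induction T with
  | v i t => rfl
  | b j t => rfl
  | nd o l r ihl ihr => simp only [ng, Tb.vl, List.map_append, ihl, ihr]

theorem vl_sh (c : ℕ) (T : Tb) : (sh c T).vl = T.vl := by
  induction T with
  | v i t => rfl
  | b j t => rfl
  | nd o l r ihl ihr => simp only [sh, Tb.vl, ihl, ihr]

theorem bs_ng (s : Bool) (T : Tb) : (ng s T).bs = T.bs := by
  induction T with
  | v i t => rfl
  | b j t => rfl
  | nd o l r ihl ihr => simp only [ng, Tb.bs, ihl, ihr]

theorem bs_sh (c : ℕ) (T : Tb) : (sh c T).bs = T.bs.map (fun j => j + c) := by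
  induction T with
  | v i t => rfl
  | b j t => rfl
  | nd o l r ihl ihr => simp only [sh, Tb.bs, ihl, ihr, List.map_append]

theorem gates_ng (s : Bool) (T : Tb) : (ng s T).gates = T.gates := by
  induction T with
  | v i t => rfl
  | b j t => rfl
  | nd o l r ihl ihr => simp only [ng, Tb.gates, ihl, ihr]

theorem gates_sh (c : ℕ) (T : Tb) : (sh c T).gates = T.gates := by
  induction T with
  | v i t => rfl
  | b j t => rfl
  | nd o l r ihl ihr => simp only [sh, Tb.gates, ihl, ihr]

theorem vl_tsub (T : Tb) (d : ℕ) (U : Tb) (i : ℕ) (h : i ∈ (tsub T d U).vl.map Prod.fst) :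
    i ∈ U.vl.map Prod.fst ∨ i ∈ T.vl.map Prod.fst := by
  induction U with
  | v j t => exact Or.inl h
  | b j t =>
    right
    unfold tsub at h
    split_ifs at h with h1 h2
    · simp [Tb.vl] at h
    · rw [vl_ng, vl_sh] at h
      exact h
    · simp [Tb.vl] at h
  | nd o l r ihl ihr =>
    simp only [tsub, Tb.vl, List.map_append, List.mem_append] at h ⊢
    rcases h with h | h
    · rcases ihl h with h | h
      · exact Or.inl (Or.inl h)
      · exact Or.inr h
    · rcases ihr h with h | h
      · exact Or.inl (Or.inr h)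
      · exact Or.inr h

theorem vl_psub (T : Tb) (P : Pg) : ∀ (d i : ℕ), i ∈ (psub T d P).vl.map Prod.fst →
    i ∈ P.vl.map Prod.fst ∨ i ∈ T.vl.map Prod.fst := by
  induction P with
  | ret U => intro d i h; exact vl_tsub T d U i h
  | lt U R ih =>
    intro d i h
    simp only [psub, Pg.vl, List.map_append, List.mem_append] at h ⊢
    rcases h with h | h
    · rcases vl_tsub T d U i h with h | h
      · exact Or.inl (Or.inl h)
      · exact Or.inr h
    · rcases ih (d + 1) i h with h | h
      · exact Or.inl (Or.inr h)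
      · exact Or.inr h

theorem gates_tsub (T : Tb) (d : ℕ) (U : Tb) :
    (tsub T d U).gates = U.gates + U.bs.count d * T.gates := by
  induction U with
  | v j t => simp [tsub, Tb.gates, Tb.bs]
  | b j t =>
    unfold tsub
    simp only [Tb.gates, Tb.bs]
    split_ifs with h1 h2
    · rw [List.count_eq_zero_of_not_mem (by simp; omega)]
      simp [Tb.gates]
    · subst h2
      rw [gates_ng, gates_sh]
      simp
    · rw [List.count_eq_zero_of_not_mem (by simp; omega)]
      simp [Tb.gates]
  | nd o l r ihl ihr =>
    simp only [tsub, Tb.gates, Tb.bs, List.count_append, ihl, ihr]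
    ring

theorem gates_psub (T : Tb) (P : Pg) : ∀ d : ℕ,
    (psub T d P).gates = P.gates + P.cnt d * T.gates := by
  induction P with
  | ret U => intro d; exact gates_tsub T d U
  | lt U R ih =>
    intro d
    simp only [psub, Pg.gates, Pg.cnt, ih, gates_tsub]
    ring

theorem count_tsub (T : Tb) (d i : ℕ) (h : i < d) (U : Tb) :
    (tsub T d U).bs.count i = U.bs.count i := by
  induction U with
  | v j t => rfl
  | b j t =>
    unfold tsub
    split_ifs with h1 h2
    · rfl
    · rw [bs_ng, bs_sh, List.count_eq_zero_of_not_mem, List.count_eq_zero_of_not_mem]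
      · simp only [Tb.bs, List.mem_singleton]; omega
      · rw [List.mem_map]
        rintro ⟨q, -, hq⟩
        omega
    · simp only [Tb.bs]
      rw [List.count_eq_zero_of_not_mem, List.count_eq_zero_of_not_mem]
      · simp only [List.mem_singleton]; omega
      · simp only [List.mem_singleton]; omega
  | nd o l r ihl ihr => simp only [tsub, Tb.bs, List.count_append, ihl, ihr]

theorem cnt_psub (T : Tb) (P : Pg) : ∀ d i : ℕ, i < d → (psub T d P).cnt i = P.cnt i := by
  induction P with
  | ret U => intro d i h; exact count_tsub T d i h U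
  | lt U R ih =>
    intro d i h
    simp only [psub, Pg.cnt]
    rw [count_tsub T d i h U, ih (d + 1) (i + 1) (by omega)]

theorem two_psub (T : Tb) (P : Pg) : ∀ d : ℕ, P.two → (psub T d P).two := by
  induction P with
  | ret U => intro d _; trivial
  | lt U R ih =>
    intro d h
    simp only [psub, Pg.two] at h ⊢
    rw [cnt_psub T R (d + 1) 0 (by omega)]
    exact ⟨h.1, ih (d + 1) h.2⟩

/-! ### references -/

theorem getD_rep (n j : ℕ) : (List.replicate n true).getD j false = true ↔ j < n := by
  rw [List.getD_eq_getElem?_getD, List.getElem?_replicate]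
  split_ifs with h <;> simp [h]

theorem bs_tsub (T : Tb) (d k : ℕ) (U : Tb) (hT : ∀ j ∈ T.bs, j < k)
    (hU : ∀ j ∈ U.bs, j < d + 1 + k) : ∀ j ∈ (tsub T d U).bs, j < d + k := by
  induction U with
  | v j t => intro i hi; simp [tsub, Tb.bs] at hi
  | b j t =>
    intro i hi
    have hj := hU j (by simp [Tb.bs])
    unfold tsub at hi
    split_ifs at hi with h1 h2
    · simp only [Tb.bs, List.mem_singleton] at hi; omega
    · rw [bs_ng, bs_sh, List.mem_map] at hi
      obtain ⟨q, hq, rfl⟩ := hi
      have := hT q hq
      omega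
    · simp only [Tb.bs, List.mem_singleton] at hi; omega
  | nd o l r ihl ihr =>
    intro i hi
    simp only [tsub, Tb.bs, List.mem_append] at hi hU
    rcases hi with hi | hi
    · exact ihl (fun j hj => hU j (Or.inl hj)) i hi
    · exact ihr (fun j hj => hU j (Or.inr hj)) i hi

theorem use_psub (T : Tb) (k : ℕ) (hT : ∀ j ∈ T.bs, j < k) (P : Pg) : ∀ d n n' : ℕ,
    n = d + 1 + k → n' = d + k → P.use (List.replicate n true) →
      (psub T d P).use (List.replicate n' true) := by
  induction P with
  | ret U =>
    intro d n n' hn hn' h j hj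
    rw [getD_rep, hn']
    refine bs_tsub T d k U hT (fun i hi => ?_) j hj
    have := h i hi
    rw [getD_rep] at this
    omega
  | lt U R ih =>
    intro d n n' hn hn' h
    refine ⟨fun j hj => ?_, ?_⟩
    · rw [getD_rep, hn']
      refine bs_tsub T d k U hT (fun i hi => ?_) j hj
      have := h.1 i hi
      rw [getD_rep] at this
      omega
    · have h2 : R.use (List.replicate (n + 1) true) := h.2
      exact ih (d + 1) (n + 1) (n' + 1) (by omega) (by omega) h2

theorem main (P : Pg) : ∀ k : ℕ, P.use (List.replicate k true) →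
    (norm P).use (List.replicate k true) ∧
      (∀ i, i ∈ (norm P).vl.map Prod.fst → i ∈ P.vl.map Prod.fst) ∧
      (norm P).gates ≤ P.gates ∧ (∀ x e : List Bool, (norm P).ev x e = P.ev x e) ∧
      (norm P).two := by
  induction P with
  | ret T =>
    intro k h
    exact ⟨h, fun i hi => hi, le_rfl, fun _ _ => rfl, trivial⟩
  | lt T R ih =>
    intro k h
    have hR : R.use (List.replicate (k + 1) true) := h.2
    obtain ⟨h1, h2, h3, h4, h5⟩ := ih (k + 1) hR
    have hT : ∀ j ∈ T.bs, j < k := fun j hj => by
      have := h.1 j hj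
      rwa [getD_rep] at this
    unfold norm
    split_ifs with hc
    · refine ⟨use_psub T k hT (norm R) 0 (k + 1) k (by omega) (by omega) h1, ?_, ?_, ?_,
        two_psub T _ 0 h5⟩
      · intro i hi
        simp only [Pg.vl, List.map_append, List.mem_append]
        rcases vl_psub T (norm R) 0 i hi with hi | hi
        · exact Or.inr (h2 i hi)
        · exact Or.inl hi
      · rw [gates_psub]
        simp only [Pg.gates]
        have : (norm R).cnt 0 * T.gates ≤ 1 * T.gates := Nat.mul_le_mul_right _ hc
        omega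
      · intro x e
        have := ev_psub T (norm R) 0 x [] e rfl
        simp only [List.nil_append] at this
        rw [this, h4]
        rfl
    · refine ⟨⟨h.1, h1⟩, ?_, ?_, ?_, ⟨by omega, h5⟩⟩
      · intro i hi
        simp only [Pg.vl, List.map_append, List.mem_append] at hi ⊢
        rcases hi with hi | hi
        · exact Or.inl hi
        · exact Or.inr (h2 i hi)
      · simp only [Pg.gates]
        omega
      · intro x e
        simp only [Pg.ev]
        exact h4 _ _

end DEC2

theorem t_DEC2 : S_DEC2 := by
  intro P k h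
  obtain ⟨h1, h2, h3, h4, h5⟩ := DEC2.main P k h
  refine ⟨DEC2.norm P, h1, fun i hi => h2 i.1 (List.mem_map_of_mem hi), h3,
    fun x e _ => h4 x e, h5⟩

end Pool.Agent.H529R2.MK
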