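import Pool.Agent.H529R2.MK.Defs

/-!
# Replacing the variables of a set by references
-/

namespace Pool.Agent.H529R2.MK

open Pool.Agent.NPC Pool.Agent.H532R2.MC Pool.Agent.H529R2.MQ

namespace DL

theorem getD_rep {r j : ℕ} (h : (List.replicate r true).getD j false = true) : j < r := by
  by_contra hc
  rw [List.getD_eq_default _ _ (by simpa using Nat.le_of_not_lt hc)] at h
  exact absurd h (by simp)

theorem T_ev (D x : List Bool) (r : ℕ) (e : List Bool) (he : e.length = r) (T : Tb)
    (hT : ∀ j ∈ T.bs, j < r) : (T.dl D r).ev x (e ++ x) = T.ev x e := by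
  induction T with
  | v i s =>
    unfold Tb.dl
    split_ifs with hD
    · change xor ((e ++ x).getD (r + i) false) s = xor (x.getD i false) s
      rw [List.getD_append_right _ _ _ _ (by omega)]
      have h1 : r + i - e.length = i := by omega
      rw [h1]
    · rfl
  | b j s =>
    change xor ((e ++ x).getD j false) s = xor (e.getD j false) s
    have h1 : j < r := hT j (by simp [Tb.bs])
    rw [List.getD_append _ _ _ _ (by omega)]
  | nd o a b iha ihb =>
    have h1 := iha (fun j hj => hT j (by simp only [Tb.bs, List.mem_append]; exact Or.inl hj))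
    have h2 := ihb (fun j hj => hT j (by simp only [Tb.bs, List.mem_append]; exact Or.inr hj))
    simp only [Tb.dl, Tb.ev, h1, h2]

theorem T_bs (D : List Bool) (r : ℕ) (T : Tb) (hT : ∀ j ∈ T.bs, j < r) :
    ∀ j ∈ (T.dl D r).bs, (List.replicate r true ++ D).getD j false = true := by
  induction T with
  | v i s =>
    unfold Tb.dl
    split_ifs with hD
    · intro j hj
      simp only [Tb.bs, List.mem_singleton] at hj
      subst hj
      rw [List.getD_append_right _ _ _ _ (by simp)]
      have h1 : r + i - (List.replicate r true).length = i := by simp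
      rw [h1]
      exact hD
    · intro j hj
      simp [Tb.bs] at hj
  | b j s =>
    intro j' hj
    have hj' : j' = j := by simpa [Tb.dl, Tb.bs] using hj
    subst hj'
    have h1 : j' < r := hT j' (by simp [Tb.bs])
    rw [List.getD_append _ _ _ _ (by simpa using h1)]
    rw [List.getD_eq_getElem _ _ (by simpa using h1)]
    simp
  | nd o a b iha ihb =>
    intro j hj
    simp only [Tb.dl, Tb.bs, List.mem_append] at hj
    rcases hj with hj | hj
    · exact iha (fun j hj => hT j (by simp only [Tb.bs, List.mem_append]; exact Or.inl hj)) j hj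
    · exact ihb (fun j hj => hT j (by simp only [Tb.bs, List.mem_append]; exact Or.inr hj)) j hj

theorem T_gates (D : List Bool) (r : ℕ) (T : Tb) : (T.dl D r).gates = T.gates := by
  induction T with
  | v i s =>
    unfold Tb.dl
    split_ifs <;> rfl
  | b j s => rfl
  | nd o a b iha ihb => simp only [Tb.dl, Tb.gates, iha, ihb]

theorem T_vl (D : List Bool) (r : ℕ) (T : Tb) :
    (T.dl D r).vl = T.vl.filter (fun i => !(D.getD i.1 false)) := by
  induction T with
  | v i s =>
    unfold Tb.dl
    split_ifs with hD
    · simp only [Tb.vl]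
      rw [List.filter_cons_of_neg (by simpa using hD)]
      rfl
    · simp only [Tb.vl]
      rw [List.filter_cons_of_pos (by simpa using hD)]
      rfl
  | b j s => rfl
  | nd o a b iha ihb => simp only [Tb.dl, Tb.vl, iha, ihb, List.filter_append]

theorem bw_length (m j : ℕ) : (Sk.bw m j).length = m := by
  simp [Sk.bw]

theorem T_len (D : List Bool) (r m : ℕ) (T : Tb) :
    ((T.dl D r).sk.enc m).length + 3 ≤ 6 * (T.gates + 1) +
      m * (T.bs.length + (T.vl.filter (fun i => D.getD i.1 false)).length) := by
  induction T with
  | v i s =>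
    unfold Tb.dl
    split_ifs with hD
    · simp only [Tb.vl, Tb.bs, Tb.gates, Tb.sk, Sk.enc]
      rw [List.filter_cons_of_pos (by simpa using hD)]
      simp only [List.length_cons, bw_length, List.filter_nil, List.length_nil]
      omega
    · simp only [Tb.vl, Tb.bs, Tb.gates, Tb.sk, Sk.enc]
      simp
  | b j s =>
    simp only [Tb.dl, Tb.vl, Tb.bs, Tb.gates, Tb.sk, Sk.enc, List.length_cons, bw_length,
      List.filter_nil, List.length_nil]
    omega
  | nd o a b iha ihb =>
    simp only [Tb.dl, Tb.vl, Tb.bs, Tb.gates, Tb.sk, Sk.enc, List.length_cons, List.length_append,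
      List.filter_append, List.length_nil]
    have h1 : m * (a.bs.length + b.bs.length +
        ((a.vl.filter (fun i => D.getD i.1 false)).length +
          (b.vl.filter (fun i => D.getD i.1 false)).length)) =
        m * (a.bs.length + (a.vl.filter (fun i => D.getD i.1 false)).length) +
        m * (b.bs.length + (b.vl.filter (fun i => D.getD i.1 false)).length) := by ring
    rw [h1]
    omega

theorem P_ev (D x : List Bool) (P : Pg) : ∀ (r : ℕ) (e : List Bool), e.length = r →
    P.use (List.replicate r true) → (P.dl D r).ev x (e ++ x) = P.ev x e := by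
  induction P with
  | ret T =>
    intro r e he hu
    exact T_ev D x r e he T (fun j hj => getD_rep (hu j hj))
  | lt T R ih =>
    intro r e he hu
    have h1 := T_ev D x r e he T (fun j hj => getD_rep (hu.1 j hj))
    have h2 := ih (r + 1) (T.ev x e :: e) (by rw [List.length_cons, he]) hu.2
    simp only [Pg.dl, Pg.ev, h1]
    exact h2

theorem P_use (D : List Bool) (P : Pg) : ∀ (r : ℕ), P.use (List.replicate r true) →
    (P.dl D r).use (List.replicate r true ++ D) := by
  induction P with
  | ret T =>
    intro r hu
    exact T_bs D r T (fun j hj => getD_rep (hu j hj))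
  | lt T R ih =>
    intro r hu
    exact ⟨T_bs D r T (fun j hj => getD_rep (hu.1 j hj)), ih (r + 1) hu.2⟩

theorem P_gates (D : List Bool) (P : Pg) : ∀ (r : ℕ), (P.dl D r).gates = P.gates := by
  induction P with
  | ret T =>
    intro r
    exact T_gates D r T
  | lt T R ih =>
    intro r
    simp only [Pg.dl, Pg.gates, T_gates, ih]

theorem P_lets (D : List Bool) (P : Pg) : ∀ (r : ℕ), (P.dl D r).lets = P.lets := by
  induction P with
  | ret T =>
    intro r
    rfl
  | lt T R ih =>
    intro r
    simp only [Pg.dl, Pg.lets, ih]

theorem P_vl (D : List Bool) (P : Pg) : ∀ (r : ℕ),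
    (P.dl D r).vl = P.vl.filter (fun i => !(D.getD i.1 false)) := by
  induction P with
  | ret T =>
    intro r
    exact T_vl D r T
  | lt T R ih =>
    intro r
    simp only [Pg.dl, Pg.vl, T_vl, ih, List.filter_append]

theorem P_len (D : List Bool) (m : ℕ) (P : Pg) : ∀ (r : ℕ),
    (P.dl D r).len m ≤ 6 * (P.gates + P.lets + 1) +
      m * (P.bn + (P.vl.filter (fun i => D.getD i.1 false)).length) := by
  induction P with
  | ret T =>
    intro r
    have h1 := T_len D r m T
    simp only [Pg.dl, Pg.len, Pg.gates, Pg.lets, Pg.bn, Pg.vl]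
    omega
  | lt T R ih =>
    intro r
    have h1 := T_len D r m T
    have h2 := ih (r + 1)
    simp only [Pg.dl, Pg.len, Pg.gates, Pg.lets, Pg.bn, Pg.vl, List.filter_append,
      List.length_append]
    have h3 : m * (T.bs.length + R.bn +
        ((T.vl.filter (fun i => D.getD i.1 false)).length +
          (R.vl.filter (fun i => D.getD i.1 false)).length)) =
        m * (T.bs.length + (T.vl.filter (fun i => D.getD i.1 false)).length) +
        m * (R.bn + (R.vl.filter (fun i => D.getD i.1 false)).length) := by ring
    rw [h3]
    omega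

end DL

/-- Replacing the variables of `D`. -/
theorem t_DL : S_DL := by
  intro n D P hD hu hv
  refine ⟨fun x hx => ?_, ?_, DL.P_gates D P 0, DL.P_lets D P 0, DL.P_vl D P 0,
    fun m => DL.P_len D m P 0⟩
  · exact DL.P_ev D x P 0 [] rfl hu
  · exact DL.P_use D P 0 hu

end Pool.Agent.H529R2.MK
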