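import Pool.Agent.H529R2.MK.Defs

/-!
# ESS2: a program contains all essential variables (adapted from ESS of helper724)
-/

namespace Pool.Agent.H529R2.MK

open Pool.Agent.NPC Pool.Agent.H532R2.MC Pool.Agent.H529R2.MQ

theorem ESS2_tb_congr (T : Tb) (x y : List Bool) (e : List Bool)
    (h : ∀ j ∈ T.vl, x.getD j.1 false = y.getD j.1 false) : T.ev x e = T.ev y e := by
  induction T with
  | v i s =>
    simp only [Tb.ev]
    rw [h (i, s) (by simp [Tb.vl])]
  | b j s => rfl
  | nd o l r ihl ihr =>
    simp only [Tb.ev]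
    rw [ihl fun j hj => h j (by simp [Tb.vl, hj]), ihr fun j hj => h j (by simp [Tb.vl, hj])]

theorem ESS2_pg_congr (P : Pg) : ∀ (x y : List Bool) (e : List Bool),
    (∀ j ∈ P.vl, x.getD j.1 false = y.getD j.1 false) → P.ev x e = P.ev y e := by
  induction P with
  | ret T =>
    intro x y e h
    exact ESS2_tb_congr T x y e h
  | lt T R ih =>
    intro x y e h
    simp only [Pg.ev]
    rw [ESS2_tb_congr T x y e fun j hj => h j (by simp [Pg.vl, hj]),
      ih x y _ fun j hj => h j (by simp [Pg.vl, hj])]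

theorem ESS2_getD_ofFn {n : ℕ} (y : Fin n → Bool) (i : Fin n) :
    (List.ofFn y).getD i false = y i := by
  rw [List.getD_eq_getElem?_getD, List.getElem?_ofFn]
  simp

theorem ESS2_fnc_ofFn {n : ℕ} (f : BF n) (y : Fin n → Bool) : fnc f (List.ofFn y) = f y := by
  unfold fnc
  congr 1
  funext i
  exact ESS2_getD_ofFn y i

theorem t_ESS2 : S_ESS2 := by
  intro n f P hlt hev
  classical
  unfold ess
  refine Finset.card_le_card_of_injOn (fun i : Fin n => i.val) ?_ ?_
  · intro i hi
    have hi' := (Finset.mem_filter.1 (Finset.mem_coe.1 hi)).2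
    obtain ⟨x, hx⟩ := hi'
    rw [Finset.mem_coe, List.mem_toFinset]
    by_contra hni
    apply hx
    rw [← ESS2_fnc_ofFn f (Function.update x i true), ← ESS2_fnc_ofFn f (Function.update x i false),
      ← hev _ (List.length_ofFn), ← hev _ (List.length_ofFn)]
    apply ESS2_pg_congr
    intro j hj
    have hjn := hlt j hj
    have hji : (⟨j.1, hjn⟩ : Fin n) ≠ i := by
      rintro rfl
      exact hni (List.mem_map.mpr ⟨j, hj, rfl⟩)
    have h1 := ESS2_getD_ofFn (Function.update x i true) ⟨j.1, hjn⟩
    have h2 := ESS2_getD_ofFn (Function.update x i false) ⟨j.1, hjn⟩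
    simp only at h1 h2
    rw [h1, h2, Function.update_of_ne hji, Function.update_of_ne hji]
  · intro i _ j _ hij
    exact Fin.ext hij

end Pool.Agent.H529R2.MK
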