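import Pool.Agent.H529R2.MK.Defs
import Pool.Agent.NPC.Dec

/-!
# Circuits slightly larger than the number of variables: the class P (helper55)
-/

namespace Pool.Agent.H529R2.MK

open Pool.Agent.NPC Pool.Agent.H532R2.MC Pool.Agent.H529R2.MQ

theorem t_MAINS (h1 : S_POLYS) (h2 : S_CORS) : S_MAINS := fun k =>
  inPP_of (h1 k) fun q => (h2 k q).symm

end Pool.Agent.H529R2.MK
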