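import Pool.Agent.H529R2.MK.POLYS1
import Pool.Agent.H529R2.MK.POLYS2
import Pool.Agent.H529R2.MQ.POLY1

/-! # Task POLYS: the algorithm runs in polynomial time -/

namespace Pool.Agent.H529R2.MK

open Pool.Agent.NPC Pool.Agent.H529R2.MQ

/-- the machine is a polynomial-time function -/
def POLYS_R : Prop := ∀ (α : Type) [TEnc α] (X : α → List (List Bool)) (f p W : α → List Bool)
    (B : α → List (List Bool)) (m : α → ℕ) (w : α → List Bool), Poly X → Poly f → Poly p →
    Poly W → Poly B → Poly m → Poly w →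
    Poly (fun a => runS (X a) (f a) (p a) (W a) (B a) (m a) (w a))

theorem POLYS_srch0 (hr : POLYS_R) (K : ℕ) {α : Type} [TEnc α] {X : α → List (List Bool)}
    {f p W : α → List Bool} {B : α → List (List Bool)} {m s cost : α → ℕ} (hX : Poly X)
    (hf : Poly f) (hp : Poly p) (hm : Poly m) (hs : Poly s) (hW : Poly W) (hB : Poly B)
    (hc : Poly cost) :
    Poly (fun a => srch0 (X a) (f a) (p a) K (m a) (s a) (W a) (B a) (cost a)) := by
  unfold srch0
  have h1 : Poly (fun q : α × List Bool =>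
      runS (X q.1) (f q.1) (p q.1) (W q.1) (B q.1) (m q.1) q.2) :=
    hr _ _ _ _ _ _ _ _ (by fun_prop) (by fun_prop) (by fun_prop) (by fun_prop) (by fun_prop)
      (by fun_prop) (by fun_prop)
  have h2 : Poly (fun a => pw (X a) K) := poly_pw hX K
  have h3 : Poly (fun q : α × List Bool =>
      (runS (X q.1) (f q.1) (p q.1) (W q.1) (B q.1) (m q.1) q.2).2.any fun e =>
        decide (e.2 + cost q.1 ≤ s q.1 + 1) && e.1.any fun a => decide (a.2 = f q.1)) := by
    fun_prop
  exact Poly.any h2 h3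

theorem POLYS_srch (hr : POLYS_R) (K c : ℕ) : ∀ {α : Type} [TEnc α]
    {X : α → List (List Bool)}
    {f p W : α → List Bool} {B : α → List (List Bool)} {m s cost : α → ℕ} (_ : Poly X)
    (_ : Poly f) (_ : Poly p) (_ : Poly m) (_ : Poly s) (_ : Poly W) (_ : Poly B)
    (_ : Poly cost),
    Poly (fun a => srch (X a) (f a) (p a) K (m a) (s a) c (W a) (B a) (cost a)) := by
  induction c with
  | zero =>
    intro α _ X f p W B m s cost hX hf hp hm hs hW hB hc
    unfold srch
    exact POLYS_srch0 hr K hX hf hp hm hs hW hB hc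
  | succ c ih =>
    intro α _ X f p W B m s cost hX hf hp hm hs hW hB hc
    have h0 := POLYS_srch0 hr K hX hf hp hm hs hW hB hc
    have h1 : Poly (fun q : α × List Bool =>
        runS (X q.1) (f q.1) (p q.1) (W q.1) (B q.1) (m q.1) q.2) :=
      hr _ _ _ _ _ _ _ _ (by fun_prop) (by fun_prop) (by fun_prop) (by fun_prop) (by fun_prop)
        (by fun_prop) (by fun_prop)
    have h2 : Poly (fun a => pw (X a) K) := poly_pw hX K
    have h3 : Poly (fun q : ((α × List Bool) × (List Ent × ℕ)) × Ent =>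
        srch (X q.1.1.1) (f q.1.1.1) (p q.1.1.1) K (m q.1.1.1) (s q.1.1.1) c
          (un (W q.1.1.1) q.2.1) (q.2.2 :: B q.1.1.1) (cost q.1.1.1 + (q.1.2.2 - 1))) := by
      refine ih (X := fun q : ((α × List Bool) × (List Ent × ℕ)) × Ent => X q.1.1.1)
        (f := fun q => f q.1.1.1) (p := fun q => p q.1.1.1) (m := fun q => m q.1.1.1)
        (s := fun q => s q.1.1.1) (W := fun q => un (W q.1.1.1) q.2.1)
        (B := fun q => q.2.2 :: B q.1.1.1) (cost := fun q => cost q.1.1.1 + (q.1.2.2 - 1))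
        (by fun_prop) (by fun_prop) (by fun_prop) (by fun_prop) (by fun_prop)
        (poly_un (by fun_prop) (by fun_prop)) (by fun_prop) (by fun_prop)
    have h4 : Poly (fun q : (α × List Bool) × (List Ent × ℕ) =>
        q.2.1.any fun a => srch (X q.1.1) (f q.1.1) (p q.1.1) K (m q.1.1) (s q.1.1) c
          (un (W q.1.1) a.1) (a.2 :: B q.1.1) (cost q.1.1 + (q.2.2 - 1))) :=
      Poly.any (by fun_prop) h3
    have h5 : Poly (fun q : α × List Bool =>
        (runS (X q.1) (f q.1) (p q.1) (W q.1) (B q.1) (m q.1) q.2).2.any fun e =>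
          e.1.any fun a => srch (X q.1) (f q.1) (p q.1) K (m q.1) (s q.1) c
          (un (W q.1) a.1) (a.2 :: B q.1) (cost q.1 + (e.2 - 1))) :=
      Poly.any (by fun_prop) h4
    unfold srch
    exact Poly.or h0 (Poly.any h2 h5)

theorem POLYS_main (hr : POLYS_R) : S_POLYS := by
  intro k
  have hX : Poly (fun q : ℕ × List Bool × ℕ => asgT q.2.1) := poly_asgT (by fun_prop)
  have hl : Poly (fun q : ℕ × List Bool × ℕ => lg q.2.1) := poly_lg (by fun_prop)
  have he : Poly (fun q : ℕ × List Bool × ℕ => essL (asgT q.2.1) q.2.1 (lg q.2.1)) :=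
    poly_essL hX (by fun_prop) hl
  have hX2 : Poly (fun q : ((ℕ × List Bool × ℕ) × List Bool) × List Bool =>
      asgT q.1.1.2.1) := poly_asgT (by fun_prop)
  have hX1 : Poly (fun q : (ℕ × List Bool × ℕ) × List Bool =>
      asgT q.1.2.1) := poly_asgT (by fun_prop)
  have hl2 : Poly (fun q : ((ℕ × List Bool × ℕ) × List Bool) × List Bool =>
      lg q.1.1.2.1) := poly_lg (by fun_prop)
  have hB : Poly (fun q : ((ℕ × List Bool × ℕ) × List Bool) × List Bool =>
      (List.range (lg q.1.1.2.1).length).map fun i => litT (asgT q.1.1.2.1) i false) := by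
    have h1 : Poly (fun q : ((ℕ × List Bool × ℕ) × List Bool) × List Bool =>
      List.range (lg q.1.1.2.1).length) := Poly.range_length hl2
    refine Pool.Agent.NPC.Poly.map h1 ?_
    exact poly_litT (hX2.comp (by fun_prop)) (by fun_prop) (by fun_prop)
  have h1 : Poly (fun q : ((ℕ × List Bool × ℕ) × List Bool) × List Bool =>
      srch (asgT q.1.1.2.1) q.1.1.2.1 q.2 (KK k) (q.1.2.length + (k + 2)) q.1.1.2.2 (k + 1)
        q.1.2
        ((List.range (lg q.1.1.2.1).length).map fun i => litT (asgT q.1.1.2.1) i false) 0) :=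
    POLYS_srch hr (KK k) (k + 1) hX2 (by fun_prop) (by fun_prop) (by fun_prop) (by fun_prop)
      (by fun_prop) hB (by fun_prop)
  have h2 : Poly (fun q : (ℕ × List Bool × ℕ) × List Bool =>
      (asgT q.1.2.1).any fun p =>
      srch (asgT q.1.2.1) q.1.2.1 p (KK k) (q.2.length + (k + 2)) q.1.2.2 (k + 1)
        q.2
        ((List.range (lg q.1.2.1).length).map fun i => litT (asgT q.1.2.1) i false) 0) :=
    Poly.any hX1 h1
  have h3 : Poly (fun q : ℕ × List Bool × ℕ =>
      (asgT q.2.1).any fun D => (asgT q.2.1).any fun p =>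
      srch (asgT q.2.1) q.2.1 p (KK k) (D.length + (k + 2)) q.2.2 (k + 1)
        D
        ((List.range (lg q.2.1).length).map fun i => litT (asgT q.2.1) i false) 0) :=
    Poly.any hX h2
  unfold algoS
  fun_prop

theorem POLYS_stepS : Poly (fun q : (List (List Bool) × List Bool ×
      List Bool × List Bool × List (List Bool) × ℕ) × (List Bool × Stk) × Bool =>
      stepS q.1.1 q.1.2.1 q.1.2.2.1 q.1.2.2.2.1 q.1.2.2.2.2.1 q.1.2.2.2.2.2 q.2.1 q.2.2) :=
  poly_stepS (by fun_prop) (by fun_prop) (by fun_prop) (by fun_prop) (by fun_prop)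
    (by fun_prop) (by fun_prop) (by fun_prop)

theorem POLYS_run : POLYS_R := by
  intro α _ X f p W B m w hX hf hp hW hB hm hw
  exact poly_runS POLYS_stepS hX hf hp hW hB hm hw

theorem t_POLYS : S_POLYS := POLYS_main POLYS_run

end Pool.Agent.H529R2.MK
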