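import Pool.Agent.H529R2.MK.Defs

/-!
# RUN2: the machine reads the code
-/

namespace Pool.Agent.H529R2.MK

open Pool.Agent.NPC Pool.Agent.H532R2.MC Pool.Agent.H529R2.MQ

theorem RUN2_bw_length (m i : ℕ) : (Sk.bw m i).length = m := by
  simp [Sk.bw]

theorem RUN2_bw (m : ℕ) : ∀ i, i < 2 ^ m → valB (Sk.bw m i) = i := by
  induction m with
  | zero =>
    intro i hi
    have h0 : i = 0 := by
      rw [pow_zero] at hi
      omega
    subst h0
    rfl
  | succ m ih =>
    intro i hi
    have h : Sk.bw (m + 1) i = i.testBit 0 :: Sk.bw m (i / 2) := by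
      unfold Sk.bw
      rw [List.range_succ_eq_map, List.map_cons, List.map_map]
      congr 1
      apply List.map_congr_left
      intro j _
      show i.testBit (j + 1) = (i / 2).testBit j
      rw [Nat.testBit_succ]
    have h2 : i / 2 < 2 ^ m := by
      rw [pow_succ] at hi
      omega
    rw [h, valB_cons, ih (i / 2) h2, Nat.testBit_zero]
    rcases Nat.mod_two_eq_zero_or_one i with h3 | h3
    · simp [h3]
      omega
    · simp [h3]
      omega

theorem RUN2_step_not (X : List (List Bool)) (f p W : List Bool) (B : List (List Bool)) (m : ℕ)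
    (r : List Bool) (b : Bool) (st : Stk) (h : r.length + 2 ≠ m + 2) :
    stepS X f p W B m (true :: r, st) b = (true :: (r ++ [b]), st) := by
  unfold stepS
  rw [if_neg]
  · simp
  · rintro (⟨h1, _⟩ | ⟨_, h1⟩)
    · simp at h1
    · apply h
      simp at h1
      omega

theorem RUN2_step_yes (X : List (List Bool)) (f p W : List Bool) (B : List (List Bool)) (m : ℕ)
    (r : List Bool) (b : Bool) (st : Stk) (h : r.length + 2 = m + 2) :
    stepS X f p W B m (true :: r, st) b = ([], execS X f p W B (true :: (r ++ [b])) st) := by
  unfold stepS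
  rw [if_pos]
  · simp
  · right
    refine ⟨by simp, ?_⟩
    simp
    omega

theorem RUN2_fold (X : List (List Bool)) (f p W : List Bool) (B : List (List Bool)) (m : ℕ)
    (st : Stk) :
    ∀ (q r : List Bool), q ≠ [] → r.length + 1 + q.length = m + 2 →
      q.foldl (stepS X f p W B m) (true :: r, st) =
        ([], execS X f p W B (true :: (r ++ q)) st) := by
  intro q
  induction q with
  | nil => intro r h _; exact absurd rfl h
  | cons b q ih =>
    intro r _ hl
    rw [List.foldl_cons]
    rw [List.length_cons] at hl
    by_cases hq : q = []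
    · subst hq
      rw [List.length_nil] at hl
      rw [RUN2_step_yes X f p W B m r b st (by omega), List.foldl_nil]
    · have hq' : 0 < q.length := List.length_pos_iff.2 hq
      rw [RUN2_step_not X f p W B m r b st (by omega), ih (r ++ [b]) hq (by simp; omega)]
      simp

theorem RUN2_enc (X : List (List Bool)) (f p W : List Bool) (B : List (List Bool)) (m : ℕ)
    (t : Sk) : ∀ st : Stk, t.lt (2 ^ m) →
    (t.enc m).foldl (stepS X f p W B m) ([], st) = ([], (tbS X f p W B t, t.lv) :: st) := by
  induction t with
  | v s =>
    intro st _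
    simp [Sk.enc, stepS, execS, tbS, Sk.lv]
  | d i s =>
    intro st hi
    have hi' : i < 2 ^ m := hi
    show (true :: s :: Sk.bw m i).foldl (stepS X f p W B m) ([], st) = _
    rw [List.foldl_cons]
    have h1 : stepS X f p W B m ([], st) true = ([true], st) := by
      unfold stepS
      rw [if_neg]
      · rfl
      · rintro (⟨h1, _⟩ | ⟨_, h1⟩)
        · simp at h1
        · simp at h1
    rw [h1, RUN2_fold X f p W B m st (s :: Sk.bw m i) [] (by simp) (by
      rw [List.length_cons, RUN2_bw_length, List.length_nil]
      omega)]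
    simp only [List.nil_append, tbS, Sk.lv]
    congr 1
    unfold execS
    simp [RUN2_bw m i hi']
  | nd o a b iha ihb =>
    intro st ht
    have ht' : a.lt (2 ^ m) ∧ b.lt (2 ^ m) := ht
    show (a.enc m ++ (b.enc m ++ [false, true, o])).foldl (stepS X f p W B m) ([], st) = _
    rw [List.foldl_append, iha st ht'.1, List.foldl_append, ihb _ ht'.2]
    simp [stepS, execS, tbS, Sk.lv]

theorem RUN2_head (l : List Bool) (h : l = [] ∨ l.getD 0 false = true) :
    (l ++ [true]).getD 0 false = true := by
  cases l with
  | nil => rfl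
  | cons a l =>
    rcases h with h | h
    · cases h
    · simpa using h

theorem RUN2_step (X : List (List Bool)) (f p W : List Bool) (B : List (List Bool)) (m : ℕ)
    (S : List Bool × Stk)
    (e : List Ent × ℕ) (he : e ∈ S.2) (h : S.1 = [] ∨ S.1.getD 0 false = true) :
    e ∈ (stepS X f p W B m S true).2 ∧
      ((stepS X f p W B m S true).1 = [] ∨
        (stepS X f p W B m S true).1.getD 0 false = true) := by
  have h1 := RUN2_head S.1 h
  unfold stepS
  split_ifs with hc
  · refine ⟨?_, Or.inl rfl⟩
    show e ∈ execS X f p W B (S.1 ++ [true]) S.2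
    unfold execS
    rw [if_neg (by rw [h1]; decide)]
    exact List.mem_cons_of_mem _ he
  · exact ⟨he, Or.inr h1⟩

theorem RUN2_pad (X : List (List Bool)) (f p W : List Bool) (B : List (List Bool)) (m k : ℕ) :
    ∀ (S : List Bool × Stk) (e : List Ent × ℕ), e ∈ S.2 →
      (S.1 = [] ∨ S.1.getD 0 false = true) →
      e ∈ ((List.replicate k true).foldl (stepS X f p W B m) S).2 := by
  induction k with
  | zero => intro S e he _; exact he
  | succ k ih =>
    intro S e he h
    rw [List.replicate_succ, List.foldl_cons]
    obtain ⟨h1, h2⟩ := RUN2_step X f p W B m S e he h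
    exact ih _ e h1 h2

theorem t_RUN2 : S_RUN2 := by
  intro X f p W B m k t ht
  unfold runS
  rw [List.foldl_append, RUN2_enc X f p W B m t [] ht]
  exact RUN2_pad X f p W B m k _ _ (List.mem_cons_self ..) (Or.inl rfl)

end Pool.Agent.H529R2.MK
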