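import Pool.Agent.H529R2.MK.Defs

/-! Task SND2: soundness of the search. -/

namespace Pool.Agent.H529R2.MK

open Pool.Agent.NPC Pool.Agent.H532R2.MC Pool.Agent.H529R2.MQ

/-- the tables in `B` are computed by nodes of `L` -/
def SND2_Has (n : ℕ) (B : List (List Bool)) (L : List (BF n)) : Prop :=
  ∀ b ∈ B, ∃ h ∈ L, b = (asg n).map (fnc h)

/-- the function of the entry can be computed with `k - 1` further gates -/
def SND2_Ok (n : ℕ) (B : List (List Bool)) (k : ℕ) (a : Ent) : Prop :=
  a.1.length = n ∧ ∀ (L : List (BF n)) (t : ℕ), Circuit n L t → SND2_Has n B L →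
    ∃ (L' : List (BF n)) (t' : ℕ), Circuit n L' t' ∧ (∀ g ∈ L, g ∈ L') ∧ t' + 1 ≤ t + k ∧
      ∃ h ∈ L', a.2 = (asg n).map (fnc h)

/-- the invariant of the stack -/
def SND2_Inv (n : ℕ) (B : List (List Bool)) (st : Stk) : Prop :=
  ∀ e ∈ st, ∀ a ∈ e.1, SND2_Ok n B e.2 a

theorem SND2_neg {n : ℕ} {L : List (BF n)} {t : ℕ} (hL : Circuit n L t) {g : BF n} (hg : g ∈ L)
    (s : Bool) : ∃ L' : List (BF n), Circuit n L' t ∧ (∀ g ∈ L, g ∈ L') ∧
      ∃ h ∈ L', ∀ x, fnc h x = xor (fnc g x) s := by
  cases s with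
  | false => exact ⟨L, hL, fun _ h => h, g, hg, fun x => (Bool.xor_false _).symm⟩
  | true =>
    refine ⟨_, hL.not hg, fun _ h => List.mem_cons_of_mem _ h, _, List.mem_cons_self, fun x => ?_⟩
    show (!(g fun i => x.getD i false)) = xor (g fun i => x.getD i false) true
    rw [Bool.xor_true]

theorem SND2_tabV (n : ℕ) (f p W : List Bool) (B : List (List Bool)) (hW : W.length = n)
    (a : Ent) (ha : a ∈ tabVS (asg n) f p W) : SND2_Ok n B 1 a := by
  unfold tabVS at ha
  obtain ⟨i, hi, ha⟩ := List.mem_flatMap.1 ha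
  rw [List.mem_range, hW] at hi
  split_ifs at ha with h
  · rw [List.mem_singleton] at ha
    subst ha
    refine ⟨?_, ?_⟩
    · show (sg W.length i).length = n
      unfold sg
      rw [List.length_map, List.length_range, hW]
    · intro L t hL _
      have hL1 := hL.var (⟨i, hi⟩ : Fin n)
      obtain ⟨L', h1, h2, h, h3, h4⟩ := SND2_neg hL1 List.mem_cons_self (p.getD i false)
      refine ⟨L', t, h1, fun g hg => h2 g (List.mem_cons_of_mem _ hg), le_rfl, h, h3, ?_⟩
      show litP (asg n) p i = _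
      unfold litP
      apply List.map_congr_left
      intro x _
      rw [h4]
      rfl
  · simp at ha

theorem SND2_tabB (hA : S_ASG) (n : ℕ) (W : List Bool) (B : List (List Bool))
    (hW : W.length = n) (j : ℕ) (s : Bool) (a : Ent) (ha : a ∈ tabBS (asg n) W B j s) :
    SND2_Ok n B 1 a := by
  unfold tabBS at ha
  split_ifs at ha with h
  · rw [List.mem_singleton] at ha
    subst ha
    refine ⟨?_, ?_⟩
    · show (W.map fun _ => false).length = n
      rw [List.length_map, hW]
    · intro L t hL hB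
      have hmem : B.getD j [] ∈ B := by
        rw [List.getD_eq_getElem _ _ h]
        exact List.getElem_mem h
      obtain ⟨g, hg, hg2⟩ := hB _ hmem
      obtain ⟨L', h1, h2, h', h3, h4⟩ := SND2_neg hL hg s
      refine ⟨L', t, h1, h2, le_rfl, h', h3, ?_⟩
      show ((asg n).map fun x => xor (lk (asg n) (B.getD j []) x) s) = _
      apply List.map_congr_left
      intro x hx
      have hx' : x.length = n := (hA.1 n x).1 hx
      rw [h4, hg2, hA.2.2.2.2 n (fnc g) x hx']
  · simp at ha

theorem SND2_tabG (hA : S_ASG) (n : ℕ) (f : List Bool) (B : List (List Bool)) (o : Bool)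
    (T U : List Ent) (k l : ℕ) (hT : ∀ a ∈ T, SND2_Ok n B k a) (hU : ∀ a ∈ U, SND2_Ok n B l a)
    (a : Ent) (ha : a ∈ tabGS (asg n) f o T U) : SND2_Ok n B (k + l) a := by
  unfold tabGS at ha
  obtain ⟨A, hAm, ha⟩ := List.mem_flatMap.1 ha
  cases hc : (candS (asg n) f o T U A).head? with
  | none => rw [hc] at ha; simp at ha
  | some p =>
    rw [hc] at ha
    have ha' : a = (A, gateT (asg n) o p.1.2 p.2.2) := by simpa using ha
    have hp : p ∈ candS (asg n) f o T U A := List.mem_of_mem_head? hc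
    unfold candS at hp
    obtain ⟨hp, -⟩ := List.mem_filter.1 hp
    obtain ⟨b, hb, hp⟩ := List.mem_flatMap.1 hp
    obtain ⟨c, hc', rfl⟩ := List.mem_map.1 hp
    obtain ⟨-, hb2⟩ := hT b hb
    obtain ⟨-, hc2⟩ := hU c hc'
    subst ha'
    refine ⟨(hA.1 n A).1 hAm, ?_⟩
    intro L t hL hB
    obtain ⟨L1, t1, a1, a2, a3, g1, a4, a5⟩ := hb2 L t hL hB
    have hB1 : SND2_Has n B L1 := by
      intro y hy
      obtain ⟨g, hg, hg2⟩ := hB y hy
      exact ⟨g, a2 g hg, hg2⟩
    obtain ⟨L2, t2, b1, b2, b3, g2, b4, b5⟩ := hc2 L1 t1 a1 hB1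
    have hval : ∀ x ∈ asg n, lk (asg n) b.2 x = fnc g1 x ∧ lk (asg n) c.2 x = fnc g2 x := by
      intro x hx
      have hx' : x.length = n := (hA.1 n x).1 hx
      rw [a5, b5, hA.2.2.2.2 n (fnc g1) x hx', hA.2.2.2.2 n (fnc g2) x hx']
      exact ⟨rfl, rfl⟩
    cases o with
    | true =>
      refine ⟨_, _, b1.and (b2 g1 a4) b4, fun g hg => List.mem_cons_of_mem _ (b2 g (a2 g hg)),
        by omega, _, List.mem_cons_self, ?_⟩
      show gateT (asg n) true b.2 c.2 = _
      unfold gateT
      apply List.map_congr_left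
      intro x hx
      rw [if_pos rfl, (hval x hx).1, (hval x hx).2]
      rfl
    | false =>
      refine ⟨_, _, b1.or (b2 g1 a4) b4, fun g hg => List.mem_cons_of_mem _ (b2 g (a2 g hg)),
        by omega, _, List.mem_cons_self, ?_⟩
      show gateT (asg n) false b.2 c.2 = _
      unfold gateT
      apply List.map_congr_left
      intro x hx
      rw [if_neg Bool.false_ne_true, (hval x hx).1, (hval x hx).2]
      rfl

theorem SND2_exec (hA : S_ASG) (n : ℕ) (f p W : List Bool) (B : List (List Bool))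
    (buf : List Bool) (hW : W.length = n) (st : Stk) (hst : SND2_Inv n B st) :
    SND2_Inv n B (execS (asg n) f p W B buf st) := by
  have hcons : ∀ (T : List Ent) (k : ℕ) (r : Stk), (∀ a ∈ T, SND2_Ok n B k a) →
      SND2_Inv n B r → SND2_Inv n B ((T, k) :: r) := by
    intro T k r hT hr e he
    rcases List.mem_cons.1 he with rfl | he
    · exact hT
    · exact hr e he
  unfold execS
  split_ifs with h1 h2
  · exact hcons _ _ _ (fun a ha => SND2_tabV n f p W B hW a ha) hst
  · match st, hst with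
    | [], hst => exact hst
    | [b], hst => exact hst
    | b :: a :: r, hst =>
      exact hcons _ _ _ (fun x hx => SND2_tabG hA n f B _ a.1 b.1 a.2 b.2
        (fun y hy => hst a (by simp) y hy) (fun y hy => hst b (by simp) y hy) x hx)
        (fun e he => hst e (by
          have he' : e ∈ r := he
          simp [he']))
  · exact hcons _ _ _ (fun a ha => SND2_tabB hA n W B hW _ _ a ha) hst

theorem SND2_run (hA : S_ASG) (n : ℕ) (f p W : List Bool) (B : List (List Bool)) (m : ℕ)
    (w : List Bool) (hW : W.length = n) : SND2_Inv n B (runS (asg n) f p W B m w).2 := by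
  have key : ∀ (w : List Bool) (S : List Bool × Stk), SND2_Inv n B S.2 →
      SND2_Inv n B (w.foldl (stepS (asg n) f p W B m) S).2 := by
    intro w
    induction w with
    | nil => intro S hS; exact hS
    | cons b w ih =>
      intro S hS
      apply ih
      unfold stepS
      split_ifs with h1
      · exact SND2_exec hA n f p W B _ hW _ hS
      · exact hS
  exact key w ([], []) (fun e he => by simp at he)

theorem SND2_srch0 (hA : S_ASG) (n : ℕ) (f p : List Bool) (K m s : ℕ) (W : List Bool)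
    (B : List (List Bool)) (cost : ℕ) (hW : W.length = n)
    (hex : ∃ (L : List (BF n)) (t : ℕ), Circuit n L t ∧ t ≤ cost ∧ SND2_Has n B L)
    (h : srch0 (asg n) f p K m s W B cost = true) :
    ∃ h : BF n, f = (asg n).map (fnc h) ∧ SizeLE n h s := by
  unfold srch0 at h
  obtain ⟨w, -, h⟩ := List.any_eq_true.1 h
  obtain ⟨e, he, h⟩ := List.any_eq_true.1 h
  rw [Bool.and_eq_true, decide_eq_true_eq] at h
  obtain ⟨h1, h2⟩ := h
  obtain ⟨a, ha, h3⟩ := List.any_eq_true.1 h2
  rw [decide_eq_true_eq] at h3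
  obtain ⟨L, t, hL, ht, hB⟩ := hex
  obtain ⟨-, hok⟩ := SND2_run hA n f p W B m w hW e he a ha
  obtain ⟨L', t', b1, -, b3, g, b4, b5⟩ := hok L t hL hB
  exact ⟨g, by rw [← h3, b5], L', t', b1, b4, by omega⟩

theorem t_SND2 (hA : S_ASG) : S_SND2 := by
  intro n f p K m s c
  induction c with
  | zero =>
    intro W B cost hW hex h
    exact SND2_srch0 hA n f p K m s W B cost hW hex h
  | succ c ih =>
    intro W B cost hW hex h
    unfold srch at h
    rw [Bool.or_eq_true] at h
    rcases h with h | h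
    · exact SND2_srch0 hA n f p K m s W B cost hW hex h
    · obtain ⟨w, -, h⟩ := List.any_eq_true.1 h
      obtain ⟨e, he, h⟩ := List.any_eq_true.1 h
      obtain ⟨a, ha, h⟩ := List.any_eq_true.1 h
      obtain ⟨L, t, hL, ht, hB⟩ := hex
      obtain ⟨hlen, hok⟩ := SND2_run hA n f p W B m w hW e he a ha
      obtain ⟨L', t', b1, b2, b3, g, b4, b5⟩ := hok L t hL hB
      refine ih (un W a.1) (a.2 :: B) (cost + (e.2 - 1)) ?_ ⟨L', t', b1, by omega, ?_⟩ h
      · unfold un
        rw [List.length_map, List.length_zip, hW, hlen, min_self]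
      · intro b hb
        rcases List.mem_cons.1 hb with rfl | hb
        · exact ⟨g, b4, b5⟩
        · obtain ⟨g', hg', hg2⟩ := hB b hb
          exact ⟨g', b2 g' hg', hg2⟩

end Pool.Agent.H529R2.MK
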