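import Pool.Agent.H529R2.MQ.All
import Pool.Agent.H529R2.MK.BN
import Pool.Agent.H529R2.MK.CORS
import Pool.Agent.H529R2.MK.CPL2
import Pool.Agent.H529R2.MK.CST
import Pool.Agent.H529R2.MK.DEC1
import Pool.Agent.H529R2.MK.DEC2
import Pool.Agent.H529R2.MK.DL
import Pool.Agent.H529R2.MK.ESS2
import Pool.Agent.H529R2.MK.MAINS
import Pool.Agent.H529R2.MK.POLYS
import Pool.Agent.H529R2.MK.RUN2
import Pool.Agent.H529R2.MK.SND2

/-!
# Circuits slightly larger than the number of variables: assembly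
-/

namespace Pool.Agent.H529R2.MK

open Pool.Agent.H529R2.MQ

theorem main : S_MAINS :=
  t_MAINS t_POLYS (t_CORS t_ASG (t_ESSL t_ASG) t_CNT (t_PW t_ASG) t_DEC1 t_DEC2 t_BN t_ESS2 t_DL
    (t_SND2 t_ASG) (t_CPL2 t_ASG (t_PW t_ASG) t_RUN2) t_CST)

end Pool.Agent.H529R2.MK
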