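import Pool.Agent.H529R2.MQ.Defs

/-!
# Circuits slightly larger than the number of variables: definitions
-/

namespace Pool.Agent.H529R2.MK

open Pool.Agent.NPC Pool.Agent.H532R2.MC Pool.Agent.H529R2.MQ

/-! ### The algorithm -/

/-- The test: whenever the variables outside `A` are fixed, the function `f` becomes constant or
equal to the function `g` or to its negation. -/
def goodS (X : List (List Bool)) (f A g : List Bool) : Bool :=
  X.all fun z => ((X.all fun x => decide (lk X f (mx A x z) = lk X g (mx A x z))) ||
    (X.all fun x => decide (lk X f (mx A x z) = !lk X g (mx A x z)))) ||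
    (X.all fun x => decide (lk X f (mx A x z) = lk X f z))

/-- The table of the literal of the variable `i` with the sign given by `p`. -/
def litP (X : List (List Bool)) (p : List Bool) (i : ℕ) : List Bool :=
  X.map fun x => xor (x.getD i false) (p.getD i false)

/-- The candidates for a leaf with an unknown variable outside `W`. -/
def tabVS (X : List (List Bool)) (f p W : List Bool) : List Ent :=
  (List.range W.length).flatMap fun i =>
    if (!(W.getD i false) && goodS X f (sg W.length i) (litP X p i)) = true then
      [(sg W.length i, litP X p i)] else []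

/-- The candidate for a leaf labelled by a known function of the list `B`. -/
def tabBS (X : List (List Bool)) (W : List Bool) (B : List (List Bool)) (j : ℕ) (s : Bool) :
    List Ent :=
  if j < B.length then [(W.map fun _ => false, X.map fun x => xor (lk X (B.getD j []) x) s)]
  else []

/-- The pairs of candidates of two subformulas with the variable set `A`. -/
def candS (X : List (List Bool)) (f : List Bool) (o : Bool) (t u : List Ent) (A : List Bool) :
    List (Ent × Ent) :=
  (t.flatMap fun a => u.map fun b => (a, b)).filter fun p =>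
    (dj p.1.1 p.2.1 && decide (un p.1.1 p.2.1 = A)) && goodS X f A (gateT X o p.1.2 p.2.2)

/-- The candidates for a gate: at most one for each set. -/
def tabGS (X : List (List Bool)) (f : List Bool) (o : Bool) (t u : List Ent) : List Ent :=
  X.flatMap fun A => (candS X f o t u A).head?.elim [] fun p => [(A, gateT X o p.1.2 p.2.2)]

/-- Execute a codeword. -/
def execS (X : List (List Bool)) (f p W : List Bool) (B : List (List Bool)) (buf : List Bool)
    (st : Stk) : Stk :=
  if buf.getD 0 false = false then
    if buf.getD 1 false = false then (tabVS X f p W, 1) :: st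
    else st.head?.elim st fun b => st.tail.head?.elim st fun a =>
      (tabGS X f (buf.getD 2 false) a.1 b.1, a.2 + b.2) :: st.tail.tail
  else (tabBS X W B (valB buf.tail.tail) (buf.getD 1 false), 1) :: st

/-- Read one bit. -/
def stepS (X : List (List Bool)) (f p W : List Bool) (B : List (List Bool)) (m : ℕ)
    (S : List Bool × Stk) (b : Bool) : List Bool × Stk :=
  if ((S.1 ++ [b]).getD 0 false = false ∧ (S.1 ++ [b]).length = 3) ∨
      ((S.1 ++ [b]).getD 0 false = true ∧ (S.1 ++ [b]).length = m + 2) then
    ([], execS X f p W B (S.1 ++ [b]) S.2)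
  else (S.1 ++ [b], S.2)

/-- Run the machine on a bit string. -/
def runS (X : List (List Bool)) (f p W : List Bool) (B : List (List Bool)) (m : ℕ)
    (w : List Bool) : List Bool × Stk :=
  w.foldl (stepS X f p W B m) ([], [])

/-- The last formula of a program: it has to compute `f` with at most `s` gates in total. -/
def srch0 (X : List (List Bool)) (f p : List Bool) (K m s : ℕ) (W : List Bool)
    (B : List (List Bool)) (cost : ℕ) : Bool :=
  (pw X K).any fun w => (runS X f p W B m w).2.any fun e =>
    decide (e.2 + cost ≤ s + 1) && e.1.any fun a => decide (a.2 = f)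

/-- The search for a program with at most `c + 1` formulas. -/
def srch (X : List (List Bool)) (f p : List Bool) (K m s : ℕ) :
    ℕ → List Bool → List (List Bool) → ℕ → Bool
  | 0, W, B, cost => srch0 X f p K m s W B cost
  | c + 1, W, B, cost => srch0 X f p K m s W B cost ||
      (pw X K).any fun w => (runS X f p W B m w).2.any fun e => e.1.any fun a =>
        srch X f p K m s c (un W a.1) (a.2 :: B) (cost + (e.2 - 1))

/-- The constant in the length of the codes. -/
def KK (k : ℕ) : ℕ := 6 * (2 * k + 3) + (k + 3) * (4 * k + 4)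

/-- The algorithm. -/
def algoS (k : ℕ) (q : ℕ × List Bool × ℕ) : Bool :=
  ((decide ((lg q.2.1).length = q.1) && decide ((asgT q.2.1).length = q.2.1.length)) &&
    decide (1 ≤ q.1)) &&
  (decide (q.2.2 ≤ essL (asgT q.2.1) q.2.1 (lg q.2.1) + k) &&
  (((decide (q.2.1 = q.2.1.map fun _ => false) || decide (q.2.1 = q.2.1.map fun _ => true)) &&
      decide (1 ≤ q.2.2)) ||
    (asgT q.2.1).any fun D => (asgT q.2.1).any fun p =>
      srch (asgT q.2.1) q.2.1 p (KK k) (D.length + (k + 2)) q.2.2 (k + 1) D
        ((List.range (lg q.2.1).length).map fun i => litT (asgT q.2.1) i false) 0))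

/-! ### Programs -/

/-- Formulas whose leaves are signed variables and signed references to earlier results (`b j s`:
the result number `j`, the last one has the number `0`). -/
inductive Tb : Type
  | v (i : ℕ) (s : Bool) : Tb
  | b (j : ℕ) (s : Bool) : Tb
  | nd (o : Bool) (l r : Tb) : Tb

namespace Tb

/-- The value for the assignment `x` and the earlier results `e`. -/
def ev : Tb → List Bool → List Bool → Bool
  | v i s, x, _ => xor (x.getD i false) s
  | b j s, _, e => xor (e.getD j false) s
  | nd o l r, x, e => if o = true then l.ev x e && r.ev x e else l.ev x e || r.ev x e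

/-- The variable leaves. -/
def vl : Tb → List (ℕ × Bool)
  | v i s => [(i, s)]
  | b _ _ => []
  | nd _ l r => l.vl ++ r.vl

/-- The reference leaves. -/
def bs : Tb → List ℕ
  | v _ _ => []
  | b j _ => [j]
  | nd _ l r => l.bs ++ r.bs

/-- The number of gates. -/
def gates : Tb → ℕ
  | v _ _ => 0
  | b _ _ => 0
  | nd _ l r => l.gates + r.gates + 1

/-- The skeleton. -/
def sk : Tb → Sk
  | v _ s => Sk.v s
  | b j s => Sk.d j s
  | nd o l r => Sk.nd o l.sk r.sk

/-- Replace the variables of `D` by references, where `r` earlier results are followed by the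
variables. -/
def dl (D : List Bool) (r : ℕ) : Tb → Tb
  | v i s => if D.getD i false = true then b (r + i) s else v i s
  | b j s => b j s
  | nd o l r' => nd o (l.dl D r) (r'.dl D r)

end Tb

/-- Programs: a sequence of definitions and a final formula. -/
inductive Pg : Type
  | ret (T : Tb) : Pg
  | lt (T : Tb) (R : Pg) : Pg

namespace Pg

/-- The value for the assignment `x` and the earlier results `e`. -/
def ev : Pg → List Bool → List Bool → Bool
  | ret T, x, e => T.ev x e
  | lt T R, x, e => R.ev x (T.ev x e :: e)

/-- The variable leaves. -/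
def vl : Pg → List (ℕ × Bool)
  | ret T => T.vl
  | lt T R => T.vl ++ R.vl

/-- The number of reference leaves. -/
def bn : Pg → ℕ
  | ret T => T.bs.length
  | lt T R => T.bs.length + R.bn

/-- The number of gates. -/
def gates : Pg → ℕ
  | ret T => T.gates
  | lt T R => T.gates + R.gates

/-- The number of definitions. -/
def lets : Pg → ℕ
  | ret _ => 0
  | lt _ R => R.lets + 1

/-- All references are allowed by the list `ok`. -/
def use : Pg → List Bool → Prop
  | ret T, ok => ∀ j ∈ T.bs, ok.getD j false = true
  | lt T R, ok => (∀ j ∈ T.bs, ok.getD j false = true) ∧ R.use (true :: ok)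

/-- The number of references to the earlier result number `d`. -/
def cnt : Pg → ℕ → ℕ
  | ret T, d => T.bs.count d
  | lt T R, d => T.bs.count d + R.cnt (d + 1)

/-- Each definition is used at least twice. -/
def two : Pg → Prop
  | ret _ => True
  | lt _ R => 2 ≤ R.cnt 0 ∧ R.two

/-- The total length of the codes. -/
def len (m : ℕ) : Pg → ℕ
  | ret T => (T.sk.enc m).length
  | lt T R => (T.sk.enc m).length + R.len m

/-- Replace the variables of `D` by references. -/
def dl (D : List Bool) : ℕ → Pg → Pg
  | r, ret T => ret (T.dl D r)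
  | r, lt T R => lt (T.dl D r) (R.dl D (r + 1))

end Pg

/-- The instances of MCSP with threshold at most `k` above the number of essential variables. -/
def Near (k n : ℕ) (T : List Bool) (s : ℕ) : Prop :=
  ∃ f : BF n, T = table n f ∧ s ≤ ess f + k

/-! ### Statements of the building blocks -/

/-- Circuits as programs (each gate is a definition). -/
def S_DEC1 : Prop :=
  ∀ (n : ℕ) (f : BF n) (s : ℕ), SizeLE n f s →
    ∃ P : Pg, P.use [] ∧ (∀ i ∈ P.vl, i.1 < n) ∧ P.gates ≤ s ∧
      ∀ x : List Bool, P.ev x [] = fnc f x

/-- Inlining the definitions which are used at most once. -/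
def S_DEC2 : Prop :=
  ∀ (P : Pg) (k : ℕ), P.use (List.replicate k true) →
    ∃ Q : Pg, Q.use (List.replicate k true) ∧ (∀ i ∈ Q.vl, i.1 ∈ P.vl.map Prod.fst) ∧
      Q.gates ≤ P.gates ∧
      (∀ x e : List Bool, e.length = k → Q.ev x e = P.ev x e) ∧ Q.two

/-- Counting leaves. -/
def S_BN : Prop :=
  (∀ P : Pg, P.use [] → P.two → 2 * P.lets ≤ P.bn) ∧
  (∀ P : Pg, P.vl.length + P.bn = P.gates + P.lets + 1)

/-- A program contains all essential variables. -/
def S_ESS2 : Prop :=
  ∀ (n : ℕ) (f : BF n) (P : Pg), (∀ i ∈ P.vl, i.1 < n) →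
    (∀ x : List Bool, x.length = n → P.ev x [] = fnc f x) →
      ess f ≤ (P.vl.map Prod.fst).toFinset.card

/-- Replacing the variables of `D`. -/
def S_DL : Prop :=
  ∀ (n : ℕ) (D : List Bool) (P : Pg), D.length = n → P.use [] → (∀ i ∈ P.vl, i.1 < n) →
    (∀ x : List Bool, x.length = n → (P.dl D 0).ev x x = P.ev x []) ∧
    (P.dl D 0).use D ∧ (P.dl D 0).gates = P.gates ∧ (P.dl D 0).lets = P.lets ∧
    (P.dl D 0).vl = P.vl.filter (fun i => !(D.getD i.1 false)) ∧
    ∀ m, (P.dl D 0).len m ≤ 6 * (P.gates + P.lets + 1) +
      m * (P.bn + (P.vl.filter (fun i => D.getD i.1 false)).length)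

/-- The machine computes the table of candidates of the coded skeleton. -/
def tbS (X : List (List Bool)) (f p W : List Bool) (B : List (List Bool)) : Sk → List Ent
  | Sk.v _ => tabVS X f p W
  | Sk.d j s => tabBS X W B j s
  | Sk.nd o a b => tabGS X f o (tbS X f p W B a) (tbS X f p W B b)

/-- The machine computes the table of candidates of the coded skeleton, and the entries of the
stack remain when the code is padded with ones. -/
def S_RUN2 : Prop :=
  ∀ (X : List (List Bool)) (f p W : List Bool) (B : List (List Bool)) (m k : ℕ) (t : Sk),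
    t.lt (2 ^ m) →
    (tbS X f p W B t, t.lv) ∈ (runS X f p W B m (t.enc m ++ List.replicate k true)).2

/-- Soundness of the search. -/
def S_SND2 : Prop :=
  ∀ (n : ℕ) (f p : List Bool) (K m s c : ℕ) (W : List Bool) (B : List (List Bool)) (cost : ℕ),
    W.length = n →
    (∃ (L : List (BF n)) (t : ℕ), Circuit n L t ∧ t ≤ cost ∧
      ∀ b ∈ B, ∃ h ∈ L, b = (asg n).map (fnc h)) →
    srch (asg n) f p K m s c W B cost = true →
    ∃ h : BF n, f = (asg n).map (fnc h) ∧ SizeLE n h s

/-- Completeness of the search. -/
def S_CPL2 : Prop :=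
  ∀ (n K m s : ℕ) (G : List Bool → Bool) (p : List Bool), p.length = n →
    ∀ (P : Pg) (c cost : ℕ) (W ok : List Bool) (β : List (List Bool → Bool)), W.length = n →
      P.use ok →
      (∀ j, ok.getD j false = true → j < β.length ∧ ∀ x y : List Bool, x.length = n →
        y.length = n → (∀ i, W.getD i false = true → x.getD i false = y.getD i false) →
        (β.getD j fun _ => false) x = (β.getD j fun _ => false) y) →
      (∀ i ∈ P.vl, i.1 < n ∧ W.getD i.1 false = false ∧ i.2 = p.getD i.1 false) →
      (P.vl.map Prod.fst).Nodup →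
      (∀ x : List Bool, x.length = n → P.ev x (β.map fun g => g x) = G x) →
      P.lets ≤ c → cost + P.gates ≤ s → P.len m ≤ K * n → β.length + P.lets ≤ 2 ^ m →
      srch (asg n) ((asg n).map G) p K m s c W (β.map fun g => (asg n).map g) cost = true

/-- Constant functions. -/
def S_CST : Prop :=
  ∀ (n : ℕ) (f : BF n) (s : ℕ), 1 ≤ n → (∀ x y, f x = f y) → (SizeLE n f s ↔ 1 ≤ s)

/-- The algorithm runs in polynomial time. -/
def S_POLYS : Prop := ∀ k : ℕ, Poly (algoS k)

/-- The algorithm is correct. -/
def S_CORS : Prop :=
  ∀ (k : ℕ) (q : ℕ × List Bool × ℕ), algoS k q = true ↔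
    MCSP q.1 q.2.1 q.2.2 ∧ Near k q.1 q.2.1 q.2.2

/-- The theorem. -/
def S_MAINS : Prop :=
  ∀ k : ℕ, InPP (fun q : ℕ × List Bool × ℕ => MCSP q.1 q.2.1 q.2.2 ∧ Near k q.1 q.2.1 q.2.2)

end Pool.Agent.H529R2.MK
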