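import Pool.Agent.H529R2.MK.Defs
import Pool.Agent.H529R2.MQ.POLY1

/-!
# Polynomial time, part 1: everything except the fold
-/

namespace Pool.Agent.H529R2.MK

open Pool.Agent.NPC Pool.Agent.H529R2.MQ

attribute [local fun_prop] Poly.range_length poly_mx poly_lk poly_dj poly_un poly_sg poly_gateT
  poly_litT

variable {α : Type} [TEnc α]

theorem poly_goodS {X : α → List (List Bool)} {f A g : α → List Bool} (hX : Poly X) (hf : Poly f)
    (hA : Poly A) (hg : Poly g) : Poly (fun a => goodS (X a) (f a) (A a) (g a)) := by
  unfold goodS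
  fun_prop

attribute [local fun_prop] poly_goodS

theorem poly_litP {X : α → List (List Bool)} {p : α → List Bool} {i : α → ℕ} (hX : Poly X)
    (hp : Poly p) (hi : Poly i) : Poly (fun a => litP (X a) (p a) (i a)) := by
  unfold litP
  fun_prop

attribute [local fun_prop] poly_litP

theorem poly_tabVS {X : α → List (List Bool)} {f p W : α → List Bool} (hX : Poly X)
    (hf : Poly f) (hp : Poly p) (hW : Poly W) :
    Poly (fun a => tabVS (X a) (f a) (p a) (W a)) := by
  unfold tabVS
  fun_prop

attribute [local fun_prop] poly_tabVS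

theorem poly_tabBS {X : α → List (List Bool)} {W : α → List Bool} {B : α → List (List Bool)}
    {j : α → ℕ} {s : α → Bool}
    (hX : Poly X) (hW : Poly W) (hB : Poly B) (hj : Poly j) (hs : Poly s) :
    Poly (fun a => tabBS (X a) (W a) (B a) (j a) (s a)) := by
  unfold tabBS
  fun_prop

attribute [local fun_prop] poly_tabBS

theorem poly_candS {X : α → List (List Bool)} {f : α → List Bool} {o : α → Bool}
    {t u : α → List Ent} {A : α → List Bool} (hX : Poly X) (hf : Poly f) (ho : Poly o)
    (ht : Poly t) (hu : Poly u) (hA : Poly A) :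
    Poly (fun a => candS (X a) (f a) (o a) (t a) (u a) (A a)) := by
  unfold candS
  fun_prop

attribute [local fun_prop] poly_candS

theorem poly_tabGS {X : α → List (List Bool)} {f : α → List Bool} {o : α → Bool}
    {t u : α → List Ent} (hX : Poly X) (hf : Poly f) (ho : Poly o)
    (ht : Poly t) (hu : Poly u) :
    Poly (fun a => tabGS (X a) (f a) (o a) (t a) (u a)) := by
  unfold tabGS
  fun_prop

attribute [local fun_prop] poly_tabGS

theorem poly_execS {X : α → List (List Bool)} {f p W buf : α → List Bool}
    {B : α → List (List Bool)} {st : α → Stk}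
    (hX : Poly X) (hf : Poly f) (hp : Poly p) (hW : Poly W) (hB : Poly B) (hb : Poly buf)
    (hst : Poly st) :
    Poly (fun a => execS (X a) (f a) (p a) (W a) (B a) (buf a) (st a)) := by
  have hv : Poly (fun a => valB (buf a).tail.tail) := Poly.valBits (by fun_prop)
  unfold execS
  fun_prop

attribute [local fun_prop] poly_execS

theorem poly_stepS {X : α → List (List Bool)} {f p W : α → List Bool}
    {B : α → List (List Bool)} {m : α → ℕ}
    {S : α → List Bool × Stk} {b : α → Bool} (hX : Poly X) (hf : Poly f) (hp : Poly p)
    (hW : Poly W) (hB : Poly B) (hm : Poly m) (hS : Poly S) (hb : Poly b) :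
    Poly (fun a => stepS (X a) (f a) (p a) (W a) (B a) (m a) (S a) (b a)) := by
  unfold stepS
  fun_prop

end Pool.Agent.H529R2.MK
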